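import Pool.Agent.U663.DS.Num
import Pool.Agent.N645.KG_UPG

/-!
# Deep strata (helper663): the parts of a tuple of ideals which belong to the faces
-/

set_option autoImplicit false
set_option linter.unusedSectionVars false

namespace Pool.Agent.U663.DS

open NumberField IsDedekindDomain Finset Filter Topology Pool.Agent.H691R3 Pool.Agent.W223.AK
open Pool.Agent.N906.NT (Cx cst)
open Pool.Agent.N906.KG Pool.Agent.N645.KG

variable {K : Type} [Field K] [NumberField K] {n : ℕ}

/-- the set of the ideals divisible by `v` -/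
def fc (D : Fin n → Idl K) (v : Pr K) : Finset (Fin n) := univ.filter fun i => D i v ≠ 0

theorem mem_fc {D : Fin n → Idl K} {v : Pr K} {i : Fin n} : i ∈ fc D v ↔ D i v ≠ 0 := by
  unfold fc
  rw [mem_filter]
  exact ⟨fun h => h.2, fun h => ⟨mem_univ _, h⟩⟩

theorem fc_ne {D : Fin n → Idl K} {v : Pr K} : fc D v ≠ ∅ ↔ v ∈ sp D := by
  rw [mem_sp, ← Finset.nonempty_iff_ne_empty]
  constructor
  · rintro ⟨i, hi⟩
    exact ⟨i, mem_fc.1 hi⟩
  · rintro ⟨i, hi⟩
    exact ⟨i, mem_fc.2 hi⟩

open Classical in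
/-- the part of the tuple at the primes with the face `s` -/
noncomputable def prt (D : Fin n → Idl K) (s : Finset (Fin n)) : Fin n → Idl K :=
  fun i => (D i).filter fun v => fc D v = s

theorem prt_apply (D : Fin n → Idl K) (s : Finset (Fin n)) (i : Fin n) (v : Pr K) :
    prt D s i v = if fc D v = s then D i v else 0 := by
  classical
  unfold prt
  rw [Finsupp.filter_apply]

theorem prt_fc (D : Fin n → Idl K) (s : Finset (Fin n)) (v : Pr K) :
    fc (prt D s) v = if fc D v = s then s else ∅ := by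
  ext i
  rw [mem_fc, prt_apply]
  split_ifs with h
  · rw [← h, mem_fc]
  · simp

theorem prt_sp (D : Fin n → Idl K) {s : Finset (Fin n)} (hs : s ≠ ∅) :
    sp (prt D s) = (sp D).filter fun v => fc D v = s := by
  ext v
  rw [mem_filter, ← fc_ne, prt_fc, ← fc_ne]
  split_ifs with h
  · rw [h]; simp [hs]
  · simp [h]

theorem prt_empty (D : Fin n → Idl K) : prt D ∅ = 0 := by
  funext i
  ext v
  rw [prt_apply]
  split_ifs with h
  · by_contra hne
    have h1 : i ∈ fc D v := mem_fc.2 hne
    rw [h] at h1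
    exact Finset.notMem_empty i h1
  · rfl

theorem prt_not {Δ : Finset (Finset (Fin n))} {D : Fin n → Idl K} (hD : Tp Δ D)
    {s : Finset (Fin n)} (hs : s ∉ Δ) : prt D s = 0 := by
  funext i
  ext v
  rw [prt_apply]
  split_ifs with h
  · exfalso
    apply hs
    rw [← h]
    exact hD v
  · rfl

theorem prt_inj {D E : Fin n → Idl K} (h : ∀ s, prt D s = prt E s) : D = E := by
  funext i
  ext v
  by_cases hd : D i v = 0
  · by_cases he : E i v = 0
    · rw [hd, he]
    · exfalso
      have h1 := congrArg (fun F => F i v) (h (fc E v))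
      simp only [prt_apply, if_true] at h1
      split_ifs at h1 with h2
      · exact he (h1.symm.trans hd)
      · exact he h1.symm
  · have h1 := congrArg (fun F => F i v) (h (fc D v))
    simp only [prt_apply, if_true] at h1
    split_ifs at h1 with h2
    · exact h1
    · exact absurd h1 hd

theorem prt_tp (D : Fin n → Idl K) (s : Finset (Fin n)) : Tp s.powerset (prt D s) := by
  intro v
  have h := prt_fc D s v
  unfold fc at h
  rw [h, mem_powerset]
  split_ifs
  · exact Finset.Subset.refl _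
  · exact Finset.empty_subset _

theorem prt_sq {D : Fin n → Idl K} (hD : Sq D) (s : Finset (Fin n)) : Sq (prt D s) := by
  intro v
  have h1 : ∑ i, prt D s i v = if fc D v = s then ∑ i, D i v else 0 := by
    split_ifs with h
    · refine Finset.sum_congr rfl fun i _ => ?_
      rw [prt_apply, if_pos h]
    · refine Finset.sum_eq_zero fun i _ => ?_
      rw [prt_apply, if_neg h]
  rw [h1]
  split_ifs
  · exact hD v
  · norm_num

theorem prt_gl (D : Fin n → Idl K) {s : Finset (Fin n)} (hs : s ≠ ∅) :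
    gl (prt D s) = ∑ v ∈ (sp D).filter (fun v => fc D v = s),
      (((∑ i, D i v : ℕ) : ℝ) - 1) * Real.log (Nv v) := by
  rw [gl_eq, prt_sp D hs]
  refine Finset.sum_congr rfl fun v hv => ?_
  rw [mem_filter] at hv
  have h1 : ∑ i, prt D s i v = ∑ i, D i v := by
    refine Finset.sum_congr rfl fun i _ => ?_
    rw [prt_apply, if_pos hv.2]
  rw [h1]

theorem gl_zero : gl (0 : Fin n → Idl K) = 0 := by
  have h : sp (0 : Fin n → Idl K) = ∅ := by
    ext v
    rw [mem_sp]
    simp
  rw [gl_eq, h, Finset.sum_empty]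

theorem tr_zero : tr (0 : Fin n → Idl K) = 0 := by
  have h : sp (0 : Fin n → Idl K) = ∅ := by
    ext v
    rw [mem_sp]
    simp
  unfold tr
  rw [h, Finset.sum_empty]

theorem sum_gl (D : Fin n → Idl K) : ∑ s, gl (prt D s) = gl D := by
  classical
  have h1 : ∀ s : Finset (Fin n), gl (prt D s) = ∑ v ∈ (sp D).filter (fun v => fc D v = s),
      (((∑ i, D i v : ℕ) : ℝ) - 1) * Real.log (Nv v) := by
    intro s
    by_cases hs : s = ∅
    · rw [hs, prt_empty, gl_zero]
      symm
      apply Finset.sum_eq_zero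
      intro v hv
      rw [mem_filter] at hv
      exact absurd hv.2 (fc_ne.2 hv.1)
    · exact prt_gl D hs
  rw [Finset.sum_congr rfl fun s _ => h1 s, gl_eq]
  exact Finset.sum_fiberwise (sp D) (fun v => fc D v) _

theorem sum_tr (D : Fin n → Idl K) : ∑ s, tr (prt D s) = tr D := by
  classical
  have h1 : ∀ s : Finset (Fin n), tr (prt D s) = ∑ v ∈ (sp D).filter (fun v => fc D v = s),
      Real.log (Nv v) := by
    intro s
    by_cases hs : s = ∅
    · rw [hs, prt_empty, tr_zero]
      symm
      apply Finset.sum_eq_zero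
      intro v hv
      rw [mem_filter] at hv
      exact absurd hv.2 (fc_ne.2 hv.1)
    · unfold tr
      rw [prt_sp D hs]
  rw [Finset.sum_congr rfl fun s _ => h1 s]
  unfold tr
  exact Finset.sum_fiberwise (sp D) (fun v => fc D v) _

theorem gl_nonneg {D : Fin n → Idl K} : 0 ≤ gl D := by
  rw [gl_eq]
  refine Finset.sum_nonneg fun v hv => mul_nonneg ?_ (lg v).le
  obtain ⟨i, hi⟩ := mem_sp.1 hv
  have h1 : D i v ≤ ∑ i, D i v :=
    Finset.single_le_sum (f := fun i => D i v) (fun _ _ => Nat.zero_le _) (mem_univ i)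
  have h2 : 1 ≤ ∑ i, D i v := by omega
  have h3 : (1 : ℝ) ≤ ((∑ i, D i v : ℕ) : ℝ) := by exact_mod_cast h2
  linarith

/-- the gain at a maximal face does not increase if the tuple is made smaller -/
theorem prt_mono {Δ : Finset (Finset (Fin n))} {r t : ℕ} (hΔ : Cx Δ r t) {D E : Fin n → Idl K}
    (hDE : ∀ i, D i ≤ E i) (hE : Tp Δ E) {s : Finset (Fin n)} (hs : s.card = r) :
    gl (prt D s) ≤ gl (prt E s) := by
  classical
  have hr : 1 ≤ r := hΔ.1
  have hs0 : s ≠ ∅ := by
    rintro rfl
    rw [Finset.card_empty] at hs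
    omega
  rw [prt_gl D hs0, prt_gl E hs0]
  have hsub : (sp D).filter (fun v => fc D v = s) ⊆ (sp E).filter (fun v => fc E v = s) := by
    intro v hv
    rw [mem_filter] at hv ⊢
    have h1 : s ⊆ fc E v := by
      rw [← hv.2]
      intro i hi
      rw [mem_fc] at hi ⊢
      have := hDE i v
      omega
    have h2 : fc E v = s := (Finset.eq_of_subset_of_card_le h1 (by
      rw [hs]
      exact hΔ.2.2.2.2.1 _ (hE v))).symm
    refine ⟨?_, h2⟩
    rw [← fc_ne, h2]
    exact hs0
  refine (Finset.sum_le_sum fun v hv => ?_).trans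
    (Finset.sum_le_sum_of_subset_of_nonneg hsub fun v hv _ => ?_)
  · apply mul_le_mul_of_nonneg_right _ (lg v).le
    have : ∑ i, D i v ≤ ∑ i, E i v := Finset.sum_le_sum fun i _ => hDE i v
    have : ((∑ i, D i v : ℕ) : ℝ) ≤ ((∑ i, E i v : ℕ) : ℝ) := by exact_mod_cast this
    linarith
  · rw [mem_filter] at hv
    obtain ⟨i, hi⟩ := mem_sp.1 hv.1
    have h1 : E i v ≤ ∑ i, E i v :=
      Finset.single_le_sum (f := fun i => E i v) (fun _ _ => Nat.zero_le _) (mem_univ i)
    have h2 : 1 ≤ ∑ i, E i v := by omega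
    have h3 : (1 : ℝ) ≤ ((∑ i, E i v : ℕ) : ℝ) := by exact_mod_cast h2
    exact mul_nonneg (by linarith) (lg v).le

theorem cx_pow {s : Finset (Fin n)} (hs : s.Nonempty) : Cx s.powerset s.card 1 := by
  refine ⟨hs.card_pos, le_rfl, Finset.empty_mem_powerset s, fun a ha b hb => ?_, fun a ha => ?_, ?_⟩
  · rw [mem_powerset] at ha ⊢
    exact hb.trans ha
  · rw [mem_powerset] at ha
    exact card_le_card ha
  · rw [Finset.card_eq_one]
    refine ⟨s, ?_⟩
    ext a
    rw [mem_filter, mem_powerset, mem_singleton]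
    constructor
    · rintro ⟨h1, h2⟩
      exact Finset.eq_of_subset_of_card_le h1 h2.ge
    · rintro rfl
      exact ⟨Finset.Subset.refl _, rfl⟩

/-- the generating function with different parameters for the faces -/
theorem prod_faces {Δ : Finset (Finset (Fin n))} {L : Finset (Fin n → Idl K)}
    (hL : ∀ D ∈ L, Tp Δ D ∧ Sq D) (w : Finset (Fin n) → ℝ) (B : Finset (Fin n) → ℝ)
    (hB : ∀ s ∈ Δ, s.Nonempty → ∀ F : Finset (Fin n → Idl K), (∀ D ∈ F, Tp s.powerset D ∧ Sq D) →
      ∑ D ∈ F, Real.exp (-(w s * gl D) - tr D) ≤ Real.exp (B s)) :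
    ∑ D ∈ L, Real.exp (-(∑ s, w s * gl (prt D s)) - tr D) ≤
      Real.exp (∑ s ∈ Δ.filter (fun s => s.Nonempty), B s) := by
  classical
  rcases L.eq_empty_or_nonempty with rfl | hne
  · rw [Finset.sum_empty]
    positivity
  have h1 : ∀ D : Fin n → Idl K, Real.exp (-(∑ s, w s * gl (prt D s)) - tr D) =
      ∏ s, Real.exp (-(w s * gl (prt D s)) - tr (prt D s)) := by
    intro D
    rw [← Real.exp_sum, ← sum_tr D, Finset.sum_sub_distrib, Finset.sum_neg_distrib]
  rw [Finset.sum_congr rfl fun D _ => h1 D]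
  obtain ⟨M, hM⟩ : ∃ M : Finset (Finset (Fin n) → Fin n → Idl K),
      M = L.image fun D s => prt D s := ⟨_, rfl⟩
  have h2 : ∑ D ∈ L, ∏ s, Real.exp (-(w s * gl (prt D s)) - tr (prt D s)) =
      ∑ p ∈ M, ∏ s, Real.exp (-(w s * gl (p s)) - tr (p s)) := by
    rw [hM, Finset.sum_image]
    intro D _ E _ h
    exact prt_inj fun s => congrFun h s
  have h3 : M ⊆ Fintype.piFinset fun s => L.image fun D => prt D s := by
    intro p hp
    rw [hM] at hp
    obtain ⟨D, hD, rfl⟩ := mem_image.1 hp
    rw [Fintype.mem_piFinset]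
    intro s
    exact mem_image_of_mem _ hD
  rw [h2]
  refine (Finset.sum_le_sum_of_subset_of_nonneg h3 fun _ _ _ =>
    Finset.prod_nonneg fun _ _ => (Real.exp_pos _).le).trans ?_
  rw [← Finset.prod_univ_sum (fun s => L.image fun D => prt D s)
    (fun s E => Real.exp (-(w s * gl E) - tr E))]
  have h4 : ∀ s : Finset (Fin n), ∑ E ∈ L.image (fun D => prt D s),
      Real.exp (-(w s * gl E) - tr E) ≤
        Real.exp (if s ∈ Δ.filter (fun s => s.Nonempty) then B s else 0) := by
    intro s
    split_ifs with h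
    · rw [mem_filter] at h
      refine hB s h.1 h.2 _ fun E hE => ?_
      obtain ⟨D, hD, rfl⟩ := mem_image.1 hE
      exact ⟨prt_tp D s, prt_sq (hL D hD).2 s⟩
    · have h5 : ∀ D ∈ L, prt D s = 0 := by
        intro D hD
        rw [mem_filter, not_and_or, Finset.not_nonempty_iff_eq_empty] at h
        rcases h with h | h
        · exact prt_not (hL D hD).1 h
        · rw [h]
          exact prt_empty D
      have h6 : L.image (fun D => prt D s) ⊆ {0} := by
        intro E hE
        obtain ⟨D, hD, rfl⟩ := mem_image.1 hE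
        rw [mem_singleton]
        exact h5 D hD
      refine (Finset.sum_le_sum_of_subset_of_nonneg h6 fun _ _ _ => (Real.exp_pos _).le).trans ?_
      rw [Finset.sum_singleton, gl_zero, tr_zero]
      simp
  refine (Finset.prod_le_prod (fun s _ => Finset.sum_nonneg fun _ _ => (Real.exp_pos _).le)
    fun s _ => h4 s).trans (le_of_eq ?_)
  rw [← Real.exp_sum, Finset.sum_ite_mem, Finset.univ_inter]

end Pool.Agent.U663.DS
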