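import Pool.Agent.U663.DS.Rank
import Pool.Agent.N519.KG_CXG
import Pool.Agent.N906.KG.AllG

/-!
# Deep strata (helper663): the grid, points with a small gain at one node

`clsG` is `Pool.Agent.N645.KG.cls` (helper645) with a further condition `Qd` on the ideals which is
inherited by the divisors.
-/

set_option autoImplicit false
set_option linter.unusedSectionVars false

namespace Pool.Agent.U663.DS

open NumberField IsDedekindDomain Finset Filter Topology Pool.Agent.H691R3 Pool.Agent.W223.AK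
open Pool.Agent.N906.NT (Cx cst)
open Pool.Agent.N906.KG Pool.Agent.N645.KG
open Pool.Agent.N755.NT (cst_pos)

variable {K : Type} [Field K] [NumberField K] {q r : ℕ}

/-- the contribution of one pair of codes -/
theorem clsG {α : Fin q → K × K} {β : Fin r → K × K} {S : Finset (Pr K)}
    {A C Cn Ct κ C₀ X R : ℝ} (hA : 0 ≤ A) (hC : 0 ≤ C) (hCn : 0 ≤ Cn) (hCt : 0 ≤ Ct)
    (hκ : 0 < κ) (hκ1 : κ < 1 / 3) (hC₀ : 0 ≤ C₀) (hX : 0 ≤ X) (hR : 0 ≤ R)
    (h : CB α S A) (h' : CB β S A)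
    (hred : ∀ (E : Fin (q + r) → Idl K) (T : ℝ), Tp (Gc q r) E → 0 ≤ T → T ≤ gl E →
      ∃ D : Fin (q + r) → Idl K, (∀ i, D i ≤ E i) ∧ Tp (Gc q r) D ∧ Sq D ∧ T ≤ gl D ∧
        ∀ v ∈ sp D, gl D - Real.log (Nv v) < T)
    {Qd : (Fin (q + r) → Idl K) → Prop} (hQd : ∀ D E : Fin (q + r) → Idl K, (∀ i, D i ≤ E i) →
      Tp (Gc q r) E → Qd E → Qd D)
    {Zc : ℝ} (hrank : ∀ (T : ℝ) (F : Finset (Fin (q + r) → Idl K)), T ≤ Zc →
      (∀ D ∈ F, Tp (Gc q r) D ∧ Sq D ∧ T ≤ gl D ∧ Qd D) →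
      ∑ D ∈ F, Real.exp (-tl D) ≤ Real.exp (-T + R))
    (hcnt : ∀ (G : ℝ) (F : Finset (Fin (q + r) → Idl K)), 0 ≤ G →
      (∀ D ∈ F, Tp (Gc q r) D ∧ Sq D ∧ gl D ≤ G) →
      (F.card : ℝ) ≤ Ct * Real.exp ((1 + (1 - 3 * κ) / (2 * κ)) * G))
    (hn : ∀ (Y : ℝ) (s : Finset (Pr K)), 1 ≤ Y → (∀ v ∈ s, Nv v ≤ Y) →
      (s.card : ℝ) ≤ Cn * Y)
    (hα : ∀ x, Of α x → ∀ P, IsP S α x P → (∀ l l', l ≠ l' → Cop (P l) (P l')) ∧
      ∀ l v, (P l v : ℝ) * Real.log (Nv v) ≤ hr (aff x) + C)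
    (hβ : ∀ x, Of β x → ∀ P, IsP S β x P → (∀ l l', l ≠ l' → Cop (P l) (P l')) ∧
      ∀ l v, (P l v : ℝ) * Real.log (Nv v) ≤ hr (aff x) + C)
    {c : ℕ × (Pl K → Fin q) × (Pl K → ℕ)} {c' : ℕ × (Pl K → Fin r) × (Pl K → ℕ)}
    (hc : (c.1 : ℝ) ≤ X + 1) (hc' : (c'.1 : ℝ) ≤ X + 1)
    (hZc : κ * (c.1 + c'.1) - Kc S c - Kc S c' ≤ Zc)
    {G : Finset (K × K)} (hG : ∀ p ∈ G, Of α p.1 ∧ Of β p.2 ∧ hr (aff p.1) ≤ X ∧
      hr (aff p.2) ≤ X ∧ Ic α S C c p.1 ∧ Ic β S C c' p.2 ∧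
      ∃ P Q, IsP S α p.1 P ∧ IsP S β p.2 Q ∧
        tr (ap P Q) ≤ ((q : ℝ) - κ) * hr (aff p.1) + ((r : ℝ) - κ) * hr (aff p.2) + C₀ ∧
          Qd (ap P Q)) :
    (G.card : ℝ) ≤ A ^ 2 * (4 * Real.exp (5 + 2 * C + C₀) + 3 * Ct * Real.exp (4 + C) +
      6 * 3 ^ (q + r) * Cn * Real.exp (2 + 2 * C)) * Real.exp ((4 - 2 * κ) * X + R) := by
  classical
  obtain ⟨T, hT⟩ : ∃ T : ℝ, T = κ * (c.1 + c'.1) - Kc S c - Kc S c' - (2 * κ + 2 * C + C₀) :=
    ⟨_, rfl⟩
  have k1 := Kc0 S c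
  have k2 := Kc0 S c'
  have hTle : T ≤ 2 * κ * (X + 1) := by
    rw [hT]
    nlinarith
  obtain ⟨M, hM⟩ : ∃ M : ℝ, M = 2 * (c.1 : ℝ) + 2 * c'.1 - Kc S c - Kc S c' := ⟨_, rfl⟩
  have hMT : M - T ≤ (4 - 2 * κ) * X + (5 + 2 * C + C₀) := by
    rw [hM, hT]
    nlinarith
  have hgl : ∀ p ∈ G, ∃ P Q, IsP S α p.1 P ∧ IsP S β p.2 Q ∧ Tp (Gc q r) (ap P Q) ∧
      Qd (ap P Q) ∧ T ≤ gl (ap P Q) := by
    intro p hp
    obtain ⟨g1, g2, -, -, g5, g6, P, Q, hP, hQ, htr, hqd⟩ := hG p hp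
    refine ⟨P, Q, hP, hQ, tp_ap (hα _ g1 P hP).1 (hβ _ g2 Q hQ).1, hqd, ?_⟩
    have e1 := g5.ge P hP
    have e2 := g6.ge Q hQ
    have e3 := g5.dn
    have e4 := g6.dn
    unfold gl
    rw [tl_ap, hT]
    unfold Kc
    nlinarith
  have hE4 : Real.exp ((4 - 2 * κ) * X) ≤ Real.exp ((4 - 2 * κ) * X + R) :=
    Real.exp_le_exp.2 (by linarith)
  have hE0 : (1 : ℝ) ≤ Real.exp ((4 - 2 * κ) * X) := Real.one_le_exp (by nlinarith)
  obtain ⟨E, hE⟩ : ∃ E : ℝ, E = Real.exp ((4 - 2 * κ) * X + R) := ⟨_, rfl⟩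
  have hEpos : 0 < E := by rw [hE]; positivity
  rw [← hE] at hE4 ⊢
  have q1 : 0 ≤ 3 * Ct * Real.exp (4 + C) * E := by positivity
  have q2 : 0 ≤ 6 * 3 ^ (q + r) * Cn * Real.exp (2 + 2 * C) * E := by positivity
  rcases le_or_gt T 0 with hT0 | hT0
  · -- no condition on the ideals
    have b1 := pair_bd (D := (0 : Fin (q + r) → Idl K)) (G := G) (C := C) (c := c) (c' := c')
      hA h h' (by
        intro p hp
        obtain ⟨g1, g2, -, -, g5, g6, P, Q, hP, hQ, -⟩ := hG p hp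
        exact ⟨g1, g2, g5, g6, P, Q, hP, hQ, fun i => bot_le⟩)
    refine b1.trans ?_
    rw [mul_assoc]
    apply mul_le_mul_of_nonneg_left _ (by positivity)
    have z1 : tl (0 : Fin (q + r) → Idl K) = 0 := by simp [tl, len]
    have z2 : tl (hl (0 : Fin (q + r) → Idl K)) = 0 := by simp [tl, len, hl]
    have z3 : tl (hrr (0 : Fin (q + r) → Idl K)) = 0 := by simp [tl, len, hrr]
    rw [z1, z2, z3, sub_zero, sub_zero, sub_zero, ← hM]
    have e1 : Real.exp M ≤ Real.exp (5 + 2 * C + C₀) * E := by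
      rw [hE, ← Real.exp_add]
      exact Real.exp_le_exp.2 (by linarith)
    have e2 : Real.exp (2 * (c.1 : ℝ)) ≤ Real.exp (5 + 2 * C + C₀) * E := by
      rw [hE, ← Real.exp_add]
      exact Real.exp_le_exp.2 (by nlinarith)
    have e3 : Real.exp (2 * (c'.1 : ℝ)) ≤ Real.exp (5 + 2 * C + C₀) * E := by
      rw [hE, ← Real.exp_add]
      exact Real.exp_le_exp.2 (by nlinarith)
    have e4 : 1 ≤ Real.exp (5 + 2 * C + C₀) * E := by
      rw [hE, ← Real.exp_add]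
      exact Real.one_le_exp (by nlinarith)
    rw [split3]
    linarith
  · have hex : ∀ p : K × K, ∃ D : Fin (q + r) → Idl K, p ∈ G → Tp (Gc q r) D ∧ Sq D ∧ T ≤ gl D ∧
        (∀ v ∈ sp D, gl D - Real.log (Nv v) < T) ∧
        (∃ P Q, IsP S α p.1 P ∧ IsP S β p.2 Q ∧ ∀ i, D i ≤ ap P Q i) ∧ Qd D := by
      intro p
      by_cases hp : p ∈ G
      · obtain ⟨P, Q, hP, hQ, hTp, hqd, hg⟩ := hgl p hp
        obtain ⟨D, d1, d2, d3, d4, d5⟩ := hred (ap P Q) T hTp hT0.le hg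
        exact ⟨D, fun _ => ⟨d2, d3, d4, d5, ⟨P, Q, hP, hQ, d1⟩, hQd _ _ d1 hTp hqd⟩⟩
      · exact ⟨0, fun h => absurd h hp⟩
    choose d hd using hex
    obtain ⟨L, hL⟩ : ∃ L : Finset (Fin (q + r) → Idl K), L = G.image d := ⟨_, rfl⟩
    have hLm : ∀ D ∈ L, Tp (Gc q r) D ∧ Sq D ∧ T ≤ gl D ∧
        (∀ v ∈ sp D, gl D - Real.log (Nv v) < T) ∧
        (∀ i v, (D i v : ℝ) * Real.log (Nv v) ≤ X + C) ∧ Qd D := by
      intro D hD
      rw [hL] at hD
      obtain ⟨p, hp, rfl⟩ := mem_image.1 hD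
      obtain ⟨d1, d2, d3, d4, ⟨P, Q, hP, hQ, d5⟩, d6⟩ := hd p hp
      obtain ⟨g1, g2, g3, g4, -⟩ := hG p hp
      refine ⟨d1, d2, d3, d4, fun i v => ?_, d6⟩
      have h1 : (d p i v : ℝ) ≤ (ap P Q i v : ℝ) := by exact_mod_cast d5 i v
      refine (mul_le_mul_of_nonneg_right h1 (lg v).le).trans ?_
      refine Fin.addCases (fun l => ?_) (fun l => ?_) i
      · unfold ap
        rw [Fin.append_left]
        have := (hα _ g1 P hP).2 l v
        linarith
      · unfold ap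
        rw [Fin.append_right]
        have := (hβ _ g2 Q hQ).2 l v
        linarith
    obtain ⟨B, hB⟩ : ∃ B : ℝ, B = 2 * (X + 1) + C := ⟨_, rfl⟩
    -- one tuple
    have hterm : ∀ D ∈ L, ((#{p ∈ G | d p = D} : ℕ) : ℝ) ≤ A ^ 2 * (Real.exp (M - tl D) +
        (Real.exp (B - tl (hl D)) + Real.exp (B - tl (hrr D)) + 1)) := by
      intro D _
      have b1 := pair_bd (D := D) (G := {p ∈ G | d p = D}) (C := C) (c := c) (c' := c')
        hA h h' (by
          intro p hp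
          rw [mem_filter] at hp
          obtain ⟨g1, g2, -, -, g5, g6, -⟩ := hG p hp.1
          obtain ⟨-, -, -, -, d5, -⟩ := hd p hp.1
          rw [hp.2] at d5
          exact ⟨g1, g2, g5, g6, d5⟩)
      refine b1.trans ?_
      apply mul_le_mul_of_nonneg_left _ (by positivity)
      rw [← hM]
      have e1 : Real.exp (2 * (c.1 : ℝ) - tl (hl D)) ≤ Real.exp (B - tl (hl D)) :=
        Real.exp_le_exp.2 (by rw [hB]; linarith)
      have e2 : Real.exp (2 * (c'.1 : ℝ) - tl (hrr D)) ≤ Real.exp (B - tl (hrr D)) :=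
        Real.exp_le_exp.2 (by rw [hB]; linarith)
      linarith
    have hsum : (G.card : ℝ) ≤ A ^ 2 * (∑ D ∈ L, Real.exp (M - tl D) +
        ∑ D ∈ L, (Real.exp (B - tl (hl D)) + Real.exp (B - tl (hrr D)) + 1)) := by
      rw [card_eq_sum_card_image d G, ← hL]
      push_cast
      refine (Finset.sum_le_sum hterm).trans (le_of_eq ?_)
      rw [← Finset.mul_sum, Finset.sum_add_distrib]
    -- the main term
    have hmain : ∑ D ∈ L, Real.exp (M - tl D) ≤ Real.exp (5 + 2 * C + C₀) * E := by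
      have hTz : T ≤ Zc := by
        rw [hT]
        linarith
      have h1 := hrank T L hTz fun D hD => ⟨(hLm D hD).1, (hLm D hD).2.1, (hLm D hD).2.2.1,
        (hLm D hD).2.2.2.2.2⟩
      calc ∑ D ∈ L, Real.exp (M - tl D) = Real.exp M * ∑ D ∈ L, Real.exp (-tl D) := by
            rw [Finset.mul_sum]
            refine Finset.sum_congr rfl fun D _ => ?_
            rw [← Real.exp_add, sub_eq_add_neg]
        _ ≤ Real.exp M * Real.exp (-T + R) := mul_le_mul_of_nonneg_left h1 (by positivity)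
        _ = Real.exp (M - T + R) := by rw [← Real.exp_add]; congr 1; ring
        _ ≤ _ := by
            rw [hE, ← Real.exp_add]
            exact Real.exp_le_exp.2 (by linarith)
    -- the other terms
    have hw1 : ∑ D ∈ L.filter (fun D => gl D ≤ 2 * T),
        (Real.exp (B - tl (hl D)) + Real.exp (B - tl (hrr D)) + 1) ≤
        3 * Ct * Real.exp (4 + C) * E := by
      have h1 : ((L.filter (fun D => gl D ≤ 2 * T)).card : ℝ) ≤
          Ct * Real.exp ((1 + (1 - 3 * κ) / (2 * κ)) * (2 * T)) := by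
        refine hcnt (2 * T) _ (by linarith) fun D hD => ?_
        rw [mem_filter] at hD
        exact ⟨(hLm D hD.1).1, (hLm D hD.1).2.1, hD.2⟩
      have h2 : (1 + (1 - 3 * κ) / (2 * κ)) * (2 * T) ≤ 2 * (1 - κ) * (X + 1) := by
        have h3 : (1 + (1 - 3 * κ) / (2 * κ)) = (1 - κ) / (2 * κ) := by field_simp; ring
        rw [h3, div_mul_eq_mul_div, div_le_iff₀ (by positivity)]
        nlinarith
      refine (Finset.sum_le_card_nsmul _ _ (3 * Real.exp B) fun D _ => ?_).trans ?_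
      · have h4 : Real.exp (B - tl (hl D)) ≤ Real.exp B :=
          Real.exp_le_exp.2 (by linarith [tl0 (hl D)])
        have h5 : Real.exp (B - tl (hrr D)) ≤ Real.exp B :=
          Real.exp_le_exp.2 (by linarith [tl0 (hrr D)])
        have h6 : 1 ≤ Real.exp B := Real.one_le_exp (by rw [hB]; linarith)
        linarith
      · rw [nsmul_eq_mul]
        calc ((L.filter (fun D => gl D ≤ 2 * T)).card : ℝ) * (3 * Real.exp B)
            ≤ (Ct * Real.exp (2 * (1 - κ) * (X + 1))) * (3 * Real.exp B) := by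
              apply mul_le_mul_of_nonneg_right _ (by positivity)
              refine h1.trans ?_
              apply mul_le_mul_of_nonneg_left _ hCt
              exact Real.exp_le_exp.2 h2
          _ = 3 * Ct * Real.exp (2 * (1 - κ) * (X + 1) + B) := by rw [Real.exp_add]; ring
          _ ≤ 3 * Ct * (Real.exp (4 + C) * E) := by
              apply mul_le_mul_of_nonneg_left _ (by positivity)
              rw [hE, ← Real.exp_add]
              apply Real.exp_le_exp.2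
              rw [hB]
              nlinarith
          _ = _ := by ring
    have hw2 : ∑ D ∈ L.filter (fun D => ¬ gl D ≤ 2 * T),
        (Real.exp (B - tl (hl D)) + Real.exp (B - tl (hrr D)) + 1) ≤
        6 * 3 ^ (q + r) * Cn * Real.exp (2 + 2 * C) * E := by
      refine (exc_sum (Λ := X + C) (by linarith) (by rw [hB]; linarith) hn _ fun D hD => ?_).trans ?_
      · rw [mem_filter] at hD
        obtain ⟨d1, d2, d3, d4, d5, -⟩ := hLm D hD.1
        rcases small d2 hT0 d3 d4 with h1 | ⟨v, hv⟩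
        · exact absurd h1 hD.2
        · exact ⟨d1, v, hv, fun i => d5 i v⟩
      · rw [mul_assoc (6 * 3 ^ (q + r) * Cn)]
        apply mul_le_mul_of_nonneg_left _ (by positivity)
        rw [hE, ← Real.exp_add]
        apply Real.exp_le_exp.2
        rw [hB]
        nlinarith
    have hw := Finset.sum_filter_add_sum_filter_not L (fun D => gl D ≤ 2 * T)
      (fun D => Real.exp (B - tl (hl D)) + Real.exp (B - tl (hrr D)) + 1)
    refine hsum.trans ?_
    rw [mul_assoc (A ^ 2)]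
    apply mul_le_mul_of_nonneg_left _ (by positivity)
    rw [← hw]
    have q3 : 0 ≤ Real.exp (5 + 2 * C + C₀) * E := by positivity
    rw [split3]
    linarith


/-- Rankin's method for a small total gain -/
theorem rank_far (hR : S_RANK K) {n : ℕ} {Δ : Finset (Finset (Fin n))} {r t : ℕ} (hΔ : Cx Δ r t)
    {ρ : ℝ} (hρ0 : 0 < ρ) (hρ1 : ρ < 1) :
    ∃ η : ℝ, 0 < η ∧ η ≤ 1 ∧ ∃ Z₀ : ℝ, 1 < Z₀ ∧ ∀ (Z T : ℝ) (F : Finset (Fin n → Idl K)), Z₀ ≤ Z →
      T ≤ ρ * Z → (∀ D ∈ F, Tp Δ D ∧ Sq D ∧ T ≤ gl D) →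
      ∑ D ∈ F, Real.exp (-tl D) ≤
        Real.exp (-T + (1 - η) * (cst r t * (Z / Real.log Z) ^ ((r : ℝ) / (r + 1)))) := by
  have hr : 1 ≤ r := hΔ.1
  have ht : 1 ≤ t := hΔ.2.1
  have hr1 : (1 : ℝ) ≤ r := by exact_mod_cast hr
  obtain ⟨ρ₂, hρ₂⟩ : ∃ ρ₂ : ℝ, ρ₂ = (1 + ρ) / 2 := ⟨_, rfl⟩
  have hρ₂0 : 0 < ρ₂ := by rw [hρ₂]; linarith
  have hρ₂1 : ρ₂ < 1 := by rw [hρ₂]; linarith
  have hρρ : ρ < ρ₂ := by rw [hρ₂]; linarith
  obtain ⟨s, hs⟩ : ∃ s : ℝ, s = √ρ₂ := ⟨_, rfl⟩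
  have hs0 : 0 < s := by rw [hs]; exact Real.sqrt_pos.2 hρ₂0
  have hs1 : s < 1 := by rw [hs, Real.sqrt_lt' one_pos]; linarith
  obtain ⟨ε₁, hε₁⟩ : ∃ ε₁ : ℝ, ε₁ = (1 - s) / 2 := ⟨_, rfl⟩
  have hε₁0 : 0 < ε₁ := by rw [hε₁]; linarith
  obtain ⟨Z₁, hZ₁, hrank⟩ := hR n Δ r t ε₁ hΔ hε₁0
  obtain ⟨Z₂, hZ₂⟩ := eventually_atTop.1 ((eventually_ge_atTop (Z₁ / ρ)).and
    ((eventually_ge_atTop (2 : ℝ)).and
    (Real.tendsto_log_atTop.eventually_ge_atTop (ρ₂ * Real.log (1 / ρ) / (ρ₂ - ρ)))))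
  refine ⟨(1 - s) / 2, by linarith, by linarith, max Z₂ 2, lt_max_of_lt_right (by norm_num),
    fun Z T F hZ hT hF => ?_⟩
  obtain ⟨g1, g2, g3⟩ := hZ₂ Z ((le_max_left _ _).trans hZ)
  have hZ0 : 0 < Z := by linarith
  have hlZ : 0 < Real.log Z := Real.log_pos (by linarith)
  rw [div_le_iff₀ hρ0] at g1
  have h1 := hrank (ρ * Z) T F (by linarith) hT hF
  refine h1.trans (Real.exp_le_exp.2 ?_)
  have hc0 := cst_pos hr ht
  -- comparison of the logarithms
  have h2 : ρ * Z / Real.log (ρ * Z) ≤ ρ₂ * (Z / Real.log Z) := by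
    have h3 : Real.log (ρ * Z) = Real.log Z - Real.log (1 / ρ) := by
      rw [Real.log_mul hρ0.ne' hZ0.ne', one_div, Real.log_inv]
      ring
    have h4 : ρ / ρ₂ * Real.log Z ≤ Real.log (ρ * Z) := by
      rw [div_le_iff₀ (by linarith)] at g3
      rw [h3, div_mul_eq_mul_div, div_le_iff₀ hρ₂0]
      nlinarith
    have h5 : 0 < ρ / ρ₂ * Real.log Z := by positivity
    calc ρ * Z / Real.log (ρ * Z) ≤ ρ * Z / (ρ / ρ₂ * Real.log Z) :=
          div_le_div_of_nonneg_left (by positivity) h5 h4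
      _ = ρ₂ * (Z / Real.log Z) := by field_simp
  have h6 : 0 ≤ ρ * Z / Real.log (ρ * Z) :=
    div_nonneg (by positivity) (Real.log_nonneg (by linarith))
  have h7 : (ρ * Z / Real.log (ρ * Z)) ^ ((r : ℝ) / (r + 1)) ≤
      s * (Z / Real.log Z) ^ ((r : ℝ) / (r + 1)) := by
    calc (ρ * Z / Real.log (ρ * Z)) ^ ((r : ℝ) / (r + 1)) ≤
        (ρ₂ * (Z / Real.log Z)) ^ ((r : ℝ) / (r + 1)) :=
          Real.rpow_le_rpow h6 h2 (by positivity)
      _ = ρ₂ ^ ((r : ℝ) / (r + 1)) * (Z / Real.log Z) ^ ((r : ℝ) / (r + 1)) :=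
          Real.mul_rpow hρ₂0.le (by positivity)
      _ ≤ s * (Z / Real.log Z) ^ ((r : ℝ) / (r + 1)) := by
          apply mul_le_mul_of_nonneg_right _ (by positivity)
          rw [hs, Real.sqrt_eq_rpow]
          apply Real.rpow_le_rpow_of_exponent_ge hρ₂0 hρ₂1.le
          rw [div_le_div_iff₀ (by norm_num) (by positivity)]
          linarith
  have h8 : 0 ≤ cst r t * (Z / Real.log Z) ^ ((r : ℝ) / (r + 1)) := by positivity
  have h9 : (1 + ε₁) * s ≤ 1 - (1 - s) / 2 := by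
    rw [hε₁]
    nlinarith
  calc -T + (1 + ε₁) * cst r t * (ρ * Z / Real.log (ρ * Z)) ^ ((r : ℝ) / (r + 1)) ≤
      -T + (1 + ε₁) * cst r t * (s * (Z / Real.log Z) ^ ((r : ℝ) / (r + 1))) := by
        have := mul_le_mul_of_nonneg_left h7 (show 0 ≤ (1 + ε₁) * cst r t by positivity)
        linarith
    _ = -T + ((1 + ε₁) * s) * (cst r t * (Z / Real.log Z) ^ ((r : ℝ) / (r + 1))) := by ring
    _ ≤ _ := by
        have := mul_le_mul_of_nonneg_right h9 h8
        linarith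

/-- the final comparison -/
theorem asym2 {κ f g A c : ℝ} (hκ : 0 < κ) (hf : 0 ≤ f) (hfg : f < g) (hA : 0 < A) (hc : 0 < c)
    (N : ℕ) : ∀ᶠ X : ℝ in atTop, A * (X + A) ^ N * Real.exp (f * (c *
      (2 * κ * (X + 1) / Real.log (2 * κ * (X + 1))) ^ ((2 : ℝ) / 3))) ≤
      Real.exp (g * (c * (2 * κ * X / Real.log X) ^ ((2 : ℝ) / 3))) := by
  obtain ⟨δ, hδ0, hδ1, hδ2⟩ : ∃ δ : ℝ, 0 < δ ∧ δ < 1 ∧ (1 + δ) / (1 - δ) * f ≤ (f + g) / 2 := by
    have h1 : Tendsto (fun δ : ℝ => (1 + δ) / (1 - δ) * f) (𝓝[>] 0)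
        (𝓝 ((1 + 0) / (1 - 0) * f)) := by
      refine tendsto_nhdsWithin_of_tendsto_nhds ?_
      have h2 : Tendsto (fun δ : ℝ => (1 + δ) / (1 - δ)) (𝓝 0) (𝓝 ((1 + 0) / (1 - 0))) :=
        (tendsto_id.const_add 1).div (tendsto_id.const_sub 1) (by norm_num)
      exact h2.mul_const f
    rw [add_zero, sub_zero, div_one, one_mul] at h1
    have h2 := h1.eventually (gt_mem_nhds (show f < (f + g) / 2 by linarith))
    have h3 : ∀ᶠ δ : ℝ in 𝓝[>] 0, δ < 1 :=
      (tendsto_nhdsWithin_of_tendsto_nhds tendsto_id).eventually (gt_mem_nhds (by norm_num))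
    obtain ⟨δ, g1, g2, g3⟩ := (h2.and (h3.and self_mem_nhdsWithin)).exists
    exact ⟨δ, g3, g2, g1.le⟩
  filter_upwards [tl1 hκ hδ0 hδ1, poly2 hκ (show 0 < (g - f) / 2 * c by
      have : 0 < g - f := by linarith
      positivity) hA N,
    eventually_ge_atTop (1 / κ + 1), Real.tendsto_log_atTop.eventually_ge_atTop 1]
    with X h1 h2 h3 h4
  have hκ1 : 0 < 1 / κ := by positivity
  have hX0 : 0 < X := by linarith
  obtain ⟨W, hW⟩ : ∃ W : ℝ, W = 2 * κ * X / Real.log X := ⟨_, rfl⟩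
  obtain ⟨V, hV⟩ : ∃ V : ℝ, V = 2 * κ * (X + 1) / Real.log (2 * κ * (X + 1)) := ⟨_, rfl⟩
  rw [← hW] at h1 h2 ⊢
  rw [← hV] at h1 ⊢
  have hW0 : 0 ≤ W := by rw [hW]; positivity
  have hV0 : 0 ≤ V := by
    rw [hV]
    apply div_nonneg (by positivity)
    apply Real.log_nonneg
    have : 1 / κ * κ = 1 := by field_simp
    nlinarith
  have hM : 1 ≤ (1 + δ) / (1 - δ) := by
    rw [le_div_iff₀ (by linarith)]; linarith
  have h5 : V ^ ((2 : ℝ) / 3) ≤ (1 + δ) / (1 - δ) * W ^ ((2 : ℝ) / 3) := by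
    calc V ^ ((2 : ℝ) / 3) ≤ ((1 + δ) / (1 - δ) * W) ^ ((2 : ℝ) / 3) :=
          Real.rpow_le_rpow hV0 h1 (by norm_num)
      _ = ((1 + δ) / (1 - δ)) ^ ((2 : ℝ) / 3) * W ^ ((2 : ℝ) / 3) :=
          Real.mul_rpow (by linarith) hW0
      _ ≤ ((1 + δ) / (1 - δ)) ^ (1 : ℝ) * W ^ ((2 : ℝ) / 3) := by
          apply mul_le_mul_of_nonneg_right _ (by positivity)
          exact Real.rpow_le_rpow_of_exponent_le hM (by norm_num)
      _ = _ := by rw [Real.rpow_one]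
  have hW1 : 0 ≤ W ^ ((2 : ℝ) / 3) := by positivity
  calc A * (X + A) ^ N * Real.exp (f * (c * V ^ ((2 : ℝ) / 3)))
      ≤ Real.exp ((g - f) / 2 * c * W ^ ((2 : ℝ) / 3)) *
          Real.exp (f * (c * V ^ ((2 : ℝ) / 3))) :=
        mul_le_mul_of_nonneg_right h2 (by positivity)
    _ = Real.exp ((g - f) / 2 * c * W ^ ((2 : ℝ) / 3) + f * (c * V ^ ((2 : ℝ) / 3))) := by
        rw [Real.exp_add]
    _ ≤ _ := by
        apply Real.exp_le_exp.2
        have h6 : f * (c * V ^ ((2 : ℝ) / 3)) ≤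
            f * (c * ((1 + δ) / (1 - δ) * W ^ ((2 : ℝ) / 3))) :=
          mul_le_mul_of_nonneg_left (mul_le_mul_of_nonneg_left h5 hc.le) hf
        have h7 : (1 + δ) / (1 - δ) * f * (c * W ^ ((2 : ℝ) / 3)) ≤
            (f + g) / 2 * (c * W ^ ((2 : ℝ) / 3)) :=
          mul_le_mul_of_nonneg_right hδ2 (by positivity)
        linarith

/-- the face of a node of the grid -/
def node (q r : ℕ) (i₀ : Fin q) (j₀ : Fin r) : Finset (Fin (q + r)) :=
  {Fin.castAdd r i₀, Fin.natAdd q j₀}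

theorem cast_ne_nat (i₀ : Fin q) (j₀ : Fin r) : Fin.castAdd r i₀ ≠ Fin.natAdd q j₀ := by
  intro h
  have := congrArg Fin.val h
  simp only [Fin.val_castAdd, Fin.val_natAdd] at this
  omega

theorem node_card (i₀ : Fin q) (j₀ : Fin r) : (node q r i₀ j₀).card = 2 :=
  Finset.card_pair (cast_ne_nat i₀ j₀)

theorem node_mem (i₀ : Fin q) (j₀ : Fin r) : node q r i₀ j₀ ∈ Gc q r := by
  unfold Gc
  rw [mem_filter]
  refine ⟨mem_univ _, ?_, ?_⟩
  · refine (Finset.card_le_card (t := {Fin.castAdd r i₀}) ?_).trans (by simp)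
    intro a ha
    rw [mem_filter, node, mem_insert, mem_singleton] at ha
    rw [mem_singleton]
    rcases ha.1 with h | h
    · exact h
    · exfalso
      rw [h] at ha
      have := ha.2
      simp at this
  · refine (Finset.card_le_card (t := {Fin.natAdd q j₀}) ?_).trans (by simp)
    intro a ha
    rw [mem_filter, node, mem_insert, mem_singleton] at ha
    rw [mem_singleton]
    rcases ha.1 with h | h
    · exfalso
      rw [h] at ha
      have h1 := ha.2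
      have h2 := i₀.2
      simp only [Fin.val_castAdd] at h1
      omega
    · exact h

/-- the points with a small gain at one node of the grid, or close to the grid at the places of `S`,
are few -/
theorem fewG (K : Type) [Field K] [NumberField K] {q r : ℕ} {α : Fin q → K × K}
    {β : Fin r → K × K} {S : Finset (Pr K)} {κ ε C₀ : ℝ} (hq : 1 ≤ q) (hr' : 1 ≤ r) (hα : Al α)
    (hβ : Al β) (hSα : Gd S α) (hSβ : Gd S β) (hκ : 0 < κ) (hκ1 : κ < 1 / 3) (hε : 0 < ε)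
    (hC₀ : 0 ≤ C₀) (i₀ : Fin q) (j₀ : Fin r) :
    ∃ η : ℝ, 0 < η ∧ η ≤ 1 ∧ ∃ X₀ : ℝ, 1 < X₀ ∧ ∀ (X : ℝ) (F : Finset (K × K)), X₀ ≤ X →
    (∀ p ∈ F, Of α p.1 ∧ Of β p.2 ∧ hr (aff p.1) ≤ X ∧ hr (aff p.2) ≤ X ∧
      ∃ P Q, IsP S α p.1 P ∧ IsP S β p.2 Q ∧
        tr (ap P Q) ≤ ((q : ℝ) - κ) * hr (aff p.1) + ((r : ℝ) - κ) * hr (aff p.2) + C₀ ∧
        (gl (prt (ap P Q) (node q r i₀ j₀)) ≤ (1 / ((q * r : ℕ) : ℝ) - ε) * (2 * κ * X) ∨
          tl (ap P Q) ≤ q * hr (aff p.1) + r * hr (aff p.2) - ε * X)) →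
    (F.card : ℝ) ≤ Real.exp ((4 - 2 * κ) * X +
      (1 - η) * (cst 2 (q * r) * (2 * κ * X / Real.log X) ^ ((2 : ℝ) / 3))) := by
  classical
  obtain ⟨Ca, hCa, ha1, ha2⟩ := codes (basq_all K) hq hα hSα
  obtain ⟨Cb, hCb, hb1, hb2⟩ := codes (basq_all K) hr' hβ hSβ
  obtain ⟨A1, hA1, hcell1⟩ := (cellq_all K) q α S hα hSα
  obtain ⟨A2, hA2, hcell2⟩ := (cellq_all K) r β S hβ hSβ
  have hcx := Pool.Agent.N519.KG.cxg q r hq hr'
  have hred := (redk_all K) (q + r) (Gc q r) 2 (q * r) hcx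
  have hqr : 0 < q * r := Nat.mul_pos hq hr'
  have hqr0 : (0 : ℝ) < ((q * r : ℕ) : ℝ) := by exact_mod_cast hqr
  have hqr1 : (1 : ℝ) ≤ ((q * r : ℕ) : ℝ) := by exact_mod_cast hqr
  -- we may assume that `ε` is small
  obtain ⟨e, he⟩ : ∃ e : ℝ, e = min (min ε κ) (1 / ((q * r : ℕ) : ℝ)) := ⟨_, rfl⟩
  have he0 : 0 < e := by rw [he]; exact lt_min (lt_min hε hκ) (by positivity)
  have heε : e ≤ ε := by rw [he]; exact (min_le_left _ _).trans (min_le_left _ _)
  have heκ : e ≤ κ := by rw [he]; exact (min_le_left _ _).trans (min_le_right _ _)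
  have het : e ≤ 1 / ((q * r : ℕ) : ℝ) := by rw [he]; exact min_le_right _ _
  obtain ⟨ρ, hρ⟩ : ∃ ρ : ℝ, ρ = 1 - e / (8 * κ) := ⟨_, rfl⟩
  have hρ0 : 0 < ρ := by
    rw [hρ, sub_pos, div_lt_one (by positivity)]
    linarith
  have hρ1 : ρ < 1 := by
    rw [hρ]
    have : 0 < e / (8 * κ) := by positivity
    linarith
  obtain ⟨η₁, hη₁, hη₁1, Z₁, hZ₁, hrank₁⟩ := rankF (K := K) (gupk_all K) hcx (node_mem i₀ j₀)
    (node_card i₀ j₀) he0
  obtain ⟨η₂, hη₂, hη₂1, Z₂, hZ₂, hrank₂⟩ := rank_far (K := K) (rank_all K) hcx hρ0 hρ1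
  obtain ⟨η, hηd⟩ : ∃ η : ℝ, η = min η₁ η₂ := ⟨_, rfl⟩
  have hη : 0 < η := by rw [hηd]; exact lt_min hη₁ hη₂
  have hηa : η ≤ η₁ := by rw [hηd]; exact min_le_left _ _
  have hηb : η ≤ η₂ := by rw [hηd]; exact min_le_right _ _
  have hη1 : η ≤ 1 := hηa.trans hη₁1
  have hη' : 0 < (1 - 3 * κ) / (2 * κ) := by
    apply div_pos _ (by positivity)
    linarith
  obtain ⟨Ct, hCt, hcnt⟩ := (cntk_all K) (q + r) (Gc q r) 2 (q * r) _ hcx hη'
  obtain ⟨Cn, hCn, hn, -⟩ := Pool.Agent.N803.RS.cnt K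
  obtain ⟨C, hC⟩ : ∃ C : ℝ, C = Ca + Cb := ⟨_, rfl⟩
  have hC0 : 0 < C := by rw [hC]; positivity
  obtain ⟨A, hA⟩ : ∃ A : ℝ, A = A1 + A2 := ⟨_, rfl⟩
  have hA0 : 0 < A := by rw [hA]; positivity
  obtain ⟨B, hB⟩ : ∃ B : ℝ, B = A ^ 2 * (4 * Real.exp (5 + 2 * C + C₀) +
    3 * Ct * Real.exp (4 + C) + 6 * 3 ^ (q + r) * Cn * Real.exp (2 + 2 * C)) := ⟨_, rfl⟩
  have hB0 : 0 < B := by rw [hB]; positivity
  obtain ⟨s, hs⟩ : ∃ s : ℕ, s = (Spl S).card := ⟨_, rfl⟩
  obtain ⟨D, hD⟩ : ∃ D : ℝ, D = C ^ 2 * B + C := ⟨_, rfl⟩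
  have hD0 : 0 < D := by rw [hD]; positivity
  have hcst : 0 < cst 2 (q * r) := cst_pos (by norm_num) hqr
  have ev := (asym2 (f := 1 - η) (g := 1 - η / 2) (N := 2 * (1 + s)) hκ (by linarith) (by linarith)
    hD0 hcst).and ((eventually_ge_atTop (Z₁ / (2 * κ))).and ((eventually_ge_atTop (Z₂ / (2 * κ))).and
      ((eventually_ge_atTop (1 : ℝ)).and (eventually_gt_atTop (4 * C / e)))))
  obtain ⟨X₀, hX₀⟩ := eventually_atTop.1 ev
  refine ⟨η / 2, by positivity, by linarith, max X₀ 2, lt_max_of_lt_right (by norm_num),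
    fun X F hX hF => ?_⟩
  obtain ⟨hasy, hXZ₁, hXZ₂, hX1, hXC⟩ := hX₀ X ((le_max_left _ _).trans hX)
  have hX0 : 0 ≤ X := by linarith
  have hZa : Z₁ ≤ 2 * κ * (X + 1) := by
    rw [div_le_iff₀ (by positivity)] at hXZ₁
    nlinarith
  have hZb : Z₂ ≤ 2 * κ * (X + 1) := by
    rw [div_le_iff₀ (by positivity)] at hXZ₂
    nlinarith
  rw [div_lt_iff₀ he0] at hXC
  obtain ⟨V, hV⟩ : ∃ V : ℝ, V = 2 * κ * (X + 1) / Real.log (2 * κ * (X + 1)) := ⟨_, rfl⟩
  have hV0 : 0 ≤ V := by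
    rw [hV]
    exact div_nonneg (by positivity) (Real.log_nonneg (by linarith))
  obtain ⟨R, hR⟩ : ∃ R : ℝ, R = (1 - η) * (cst 2 (q * r) * V ^ ((2 : ℝ) / 3)) := ⟨_, rfl⟩
  have hV1 : 0 ≤ cst 2 (q * r) * V ^ ((2 : ℝ) / 3) := by positivity
  have hR0 : 0 ≤ R := by
    rw [hR]
    exact mul_nonneg (by linarith) hV1
  rw [← hV, ← hR] at hasy
  obtain ⟨Ta, ta1, ta2, ta3⟩ := ha2 X hX0
  obtain ⟨Tb, tb1, tb2, tb3⟩ := hb2 X hX0
  rw [← hs] at ta1 tb1
  have e23 : ((2 : ℕ) : ℝ) / (((2 : ℕ) : ℝ) + 1) = (2 : ℝ) / 3 := by norm_num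
  -- the codes of the points
  have hfa : ∀ x : K, ∃ c : Option (ℕ × (Pl K → Fin q) × (Pl K → ℕ)), Of α x →
      hr (aff x) ≤ X → ∃ c₁ ∈ Ta, c = some c₁ ∧ Ic α S Ca c₁ x := by
    intro x
    by_cases hx : Of α x ∧ hr (aff x) ≤ X
    · obtain ⟨c, hc, hc'⟩ := ta3 x hx.1 hx.2
      exact ⟨some c, fun _ _ => ⟨c, hc, rfl, hc'⟩⟩
    · exact ⟨none, fun h h' => absurd ⟨h, h'⟩ hx⟩
  have hfb : ∀ x : K, ∃ c : Option (ℕ × (Pl K → Fin r) × (Pl K → ℕ)), Of β x →
      hr (aff x) ≤ X → ∃ c₁ ∈ Tb, c = some c₁ ∧ Ic β S Cb c₁ x := by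
    intro x
    by_cases hx : Of β x ∧ hr (aff x) ≤ X
    · obtain ⟨c, hc, hc'⟩ := tb3 x hx.1 hx.2
      exact ⟨some c, fun _ _ => ⟨c, hc, rfl, hc'⟩⟩
    · exact ⟨none, fun h h' => absurd ⟨h, h'⟩ hx⟩
  choose fa hfa using hfa
  choose fb hfb using hfb
  have hcard : (F.card : ℝ) ≤ (Ta.card : ℝ) * Tb.card *
      (B * Real.exp ((4 - 2 * κ) * X + R)) := by
    obtain ⟨U, hU⟩ : ∃ U : Finset (Option (ℕ × (Pl K → Fin q) × (Pl K → ℕ)) ×
        Option (ℕ × (Pl K → Fin r) × (Pl K → ℕ))), U = Ta.image some ×ˢ Tb.image some := ⟨_, rfl⟩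
    have hUc : (U.card : ℝ) ≤ (Ta.card : ℝ) * Tb.card := by
      rw [hU, card_product]
      push_cast
      have e1 : ((Ta.image some).card : ℝ) ≤ Ta.card := by exact_mod_cast card_image_le
      have e2 : ((Tb.image some).card : ℝ) ≤ Tb.card := by exact_mod_cast card_image_le
      exact mul_le_mul e1 e2 (Nat.cast_nonneg _) (Nat.cast_nonneg _)
    rw [card_eq_sum_card_fiberwise (f := fun p : K × K => (fa p.1, fb p.2)) (t := U) (by
      intro p hp
      have hp' : p ∈ F := hp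
      obtain ⟨g1, g2, g3, g4, -⟩ := hF p hp'
      obtain ⟨c, hc, hc1, -⟩ := hfa p.1 g1 g3
      obtain ⟨c', hc', hc1', -⟩ := hfb p.2 g2 g4
      rw [hU, mem_coe, mem_product]
      simp only [hc1, hc1']
      exact ⟨mem_image_of_mem _ hc, mem_image_of_mem _ hc'⟩)]
    push_cast
    have hfib : ∀ u ∈ U, ((#{p ∈ F | (fa p.1, fb p.2) = u} : ℕ) : ℝ) ≤
        B * Real.exp ((4 - 2 * κ) * X + R) := by
      intro u hu
      rw [hU, mem_product, mem_image, mem_image] at hu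
      obtain ⟨⟨c, hc, hcu⟩, ⟨c', hc', hcu'⟩⟩ := hu
      have k1 := ta2 c hc
      have k2 := tb2 c' hc'
      -- the members of the class
      have hmem : ∀ p ∈ F.filter (fun p => (fa p.1, fb p.2) = u), Ic α S Ca c p.1 ∧
          Ic β S Cb c' p.2 := by
        intro p hp
        rw [mem_filter] at hp
        obtain ⟨hpF, hpu⟩ := hp
        obtain ⟨g1, g2, g3, g4, -⟩ := hF p hpF
        obtain ⟨d, -, hd1, hd2⟩ := hfa p.1 g1 g3
        obtain ⟨d', -, hd1', hd2'⟩ := hfb p.2 g2 g4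
        have e1 : fa p.1 = u.1 := congrArg Prod.fst hpu
        have e2 : fb p.2 = u.2 := congrArg Prod.snd hpu
        rw [hd1, ← hcu] at e1
        rw [hd1', ← hcu'] at e2
        have e3 : d = c := Option.some.inj e1
        have e4 : d' = c' := Option.some.inj e2
        rw [e3] at hd2
        rw [e4] at hd2'
        exact ⟨hd2, hd2'⟩
      rw [hB]
      rcases le_or_gt (e / 2 * X) (Kc S c + Kc S c') with hfar | hnear
      · -- far
        refine clsG (c := c) (c' := c') (α := α) (β := β) (S := S) hA0.le hC0.le hCn.le hCt.le hκ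
          hκ1 hC₀ hX0 hR0 (CB.mono (by linarith) hcell1) (CB.mono (by linarith) hcell2) hred
          (Qd := fun _ => True) (fun _ _ _ _ _ => trivial) (Zc := ρ * (2 * κ * (X + 1))) ?_
          hcnt hn ?_ ?_ k1 k2 ?_ ?_
        · intro T F' hT hF'
          have h5 := hrank₂ (2 * κ * (X + 1)) T F' hZb hT fun D hD =>
            ⟨(hF' D hD).1, (hF' D hD).2.1, (hF' D hD).2.2.1⟩
          rw [e23, ← hV] at h5
          refine h5.trans (Real.exp_le_exp.2 ?_)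
          rw [hR]
          have := mul_le_mul_of_nonneg_right (show 1 - η₂ ≤ 1 - η by linarith) hV1
          linarith
        · intro x hx P hP
          obtain ⟨e1, e2⟩ := ha1 x hx P hP
          exact ⟨e1, fun l v => (e2 l v).trans (by linarith)⟩
        · intro x hx P hP
          obtain ⟨e1, e2⟩ := hb1 x hx P hP
          exact ⟨e1, fun l v => (e2 l v).trans (by linarith)⟩
        · have h5 : ρ * (2 * κ * (X + 1)) = 2 * κ * (X + 1) - e / 4 * (X + 1) := by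
            rw [hρ]
            field_simp
            ring
          rw [h5]
          nlinarith
        · intro p hp
          obtain ⟨m1, m2⟩ := hmem p hp
          rw [mem_filter] at hp
          obtain ⟨g1, g2, g3, g4, P, Q, g5, g6, g7, -⟩ := hF p hp.1
          exact ⟨g1, g2, g3, g4, m1.mono (by linarith), m2.mono (by linarith), P, Q, g5, g6, g7,
            trivial⟩
      · -- near
        refine clsG (c := c) (c' := c') (α := α) (β := β) (S := S) hA0.le hC0.le hCn.le hCt.le hκ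
          hκ1 hC₀ hX0 hR0 (CB.mono (by linarith) hcell1) (CB.mono (by linarith) hcell2) hred
          (Qd := fun D => gl (prt D (node q r i₀ j₀)) ≤
            (1 / ((q * r : ℕ) : ℝ) - e) * (2 * κ * (X + 1)))
          (fun D E hDE hE hQE => (prt_mono hcx hDE hE (node_card i₀ j₀)).trans hQE)
          (Zc := 2 * κ * (X + 1)) ?_ hcnt hn ?_ ?_ k1 k2 ?_ ?_
        · intro T F' hT hF'
          have h5 := hrank₁ (2 * κ * (X + 1)) T F' hZa hT hF'
          rw [e23, ← hV] at h5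
          refine h5.trans (Real.exp_le_exp.2 ?_)
          rw [hR]
          have := mul_le_mul_of_nonneg_right (show 1 - η₁ ≤ 1 - η by linarith) hV1
          linarith
        · intro x hx P hP
          obtain ⟨e1, e2⟩ := ha1 x hx P hP
          exact ⟨e1, fun l v => (e2 l v).trans (by linarith)⟩
        · intro x hx P hP
          obtain ⟨e1, e2⟩ := hb1 x hx P hP
          exact ⟨e1, fun l v => (e2 l v).trans (by linarith)⟩
        · have h5 := Kc0 S c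
          have h6 := Kc0 S c'
          nlinarith
        · intro p hp
          obtain ⟨m1, m2⟩ := hmem p hp
          rw [mem_filter] at hp
          obtain ⟨g1, g2, g3, g4, P, Q, g5, g6, g7, g8⟩ := hF p hp.1
          refine ⟨g1, g2, g3, g4, m1.mono (by linarith), m2.mono (by linarith), P, Q, g5, g6, g7, ?_⟩
          rcases g8 with g8 | g8
          · refine g8.trans ?_
            have e5 : (1 / ((q * r : ℕ) : ℝ) - ε) * (2 * κ * X) ≤
                (1 / ((q * r : ℕ) : ℝ) - e) * (2 * κ * X) :=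
              mul_le_mul_of_nonneg_right (by linarith) (by positivity)
            have e6 : (1 / ((q * r : ℕ) : ℝ) - e) * (2 * κ * X) ≤
                (1 / ((q * r : ℕ) : ℝ) - e) * (2 * κ * (X + 1)) := by
              apply mul_le_mul_of_nonneg_left _ (by linarith)
              nlinarith
            exact e5.trans e6
          · exfalso
            have e5 := m1.ge P g5
            have e6 := m2.ge Q g6
            rw [tl_ap] at g8
            have e7 : e * X ≤ ε * X := mul_le_mul_of_nonneg_right heε hX0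
            unfold Kc at hnear
            linarith
    refine (Finset.sum_le_sum hfib).trans ?_
    rw [Finset.sum_const, nsmul_eq_mul]
    exact mul_le_mul_of_nonneg_right hUc (by positivity)
  have hTa : (Ta.card : ℝ) ≤ C * (X + D) ^ (1 + s) := by
    refine ta1.trans ?_
    apply mul_le_mul (by linarith) _ (by positivity) hC0.le
    apply pow_le_pow_left₀ (by linarith)
    have : 0 ≤ C ^ 2 * B := by positivity
    rw [hD]; linarith
  have hTb : (Tb.card : ℝ) ≤ C * (X + D) ^ (1 + s) := by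
    refine tb1.trans ?_
    apply mul_le_mul (by linarith) _ (by positivity) hC0.le
    apply pow_le_pow_left₀ (by linarith)
    have : 0 ≤ C ^ 2 * B := by positivity
    rw [hD]; linarith
  have hTT : (Ta.card : ℝ) * Tb.card * B ≤ D * (X + D) ^ (2 * (1 + s)) := by
    calc (Ta.card : ℝ) * Tb.card * B ≤ (C * (X + D) ^ (1 + s)) * (C * (X + D) ^ (1 + s)) * B := by
          apply mul_le_mul_of_nonneg_right _ hB0.le
          exact mul_le_mul hTa hTb (Nat.cast_nonneg _) (by positivity)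
      _ = (C ^ 2 * B) * (X + D) ^ (2 * (1 + s)) := by
          rw [two_mul, pow_add]; ring
      _ ≤ _ := by
          apply mul_le_mul_of_nonneg_right _ (by positivity)
          rw [hD]; linarith
  calc (F.card : ℝ) ≤ (Ta.card : ℝ) * Tb.card * (B * Real.exp ((4 - 2 * κ) * X + R)) := hcard
    _ = ((Ta.card : ℝ) * Tb.card * B) * (Real.exp ((4 - 2 * κ) * X) * Real.exp R) := by
        rw [Real.exp_add]; ring
    _ ≤ (D * (X + D) ^ (2 * (1 + s))) * (Real.exp ((4 - 2 * κ) * X) * Real.exp R) :=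
        mul_le_mul_of_nonneg_right hTT (by positivity)
    _ = Real.exp ((4 - 2 * κ) * X) * (D * (X + D) ^ (2 * (1 + s)) * Real.exp R) := by ring
    _ ≤ Real.exp ((4 - 2 * κ) * X) * Real.exp ((1 - η / 2) * (cst 2 (q * r) *
        (2 * κ * X / Real.log X) ^ ((2 : ℝ) / 3))) :=
        mul_le_mul_of_nonneg_left hasy (by positivity)
    _ = _ := by rw [← Real.exp_add]

end Pool.Agent.U663.DS
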