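import Pool.Agent.U663.DS.GridPts

/-!
# Deep strata (helper663): typical points of a grid, the elementary part
-/

set_option autoImplicit false
set_option linter.unusedSectionVars false

namespace Pool.Agent.U663.DS

open NumberField IsDedekindDomain Finset Filter Topology Module
open Pool.Agent.H691R3 Pool.Agent.W223.AK Pool.Agent.N906.KG Pool.Agent.N645.KG
open Pool.Agent.N906.NT (Cx cst)
open Pool.Agent.N755.NT (cst_pos)

variable {K : Type} [Field K] [NumberField K] {q r : ℕ}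

theorem node_inj {i i' : Fin q} {j j' : Fin r} (h : node q r i j = node q r i' j') :
    i = i' ∧ j = j' := by
  have h1 : Fin.castAdd r i ∈ node q r i' j' := by rw [← h]; simp [node]
  have h2 : Fin.natAdd q j ∈ node q r i' j' := by rw [← h]; simp [node]
  rw [node, mem_insert, mem_singleton] at h1 h2
  constructor
  · rcases h1 with h1 | h1
    · exact Fin.castAdd_injective q r h1
    · exact absurd h1 (cast_ne_nat i j')
  · rcases h2 with h2 | h2
    · exact absurd h2.symm (cast_ne_nat i' j)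
    · exact Fin.natAdd_injective r q h2

theorem sum_nodes (D : Fin (q + r) → Idl K) :
    ∑ p : Fin q × Fin r, gl (prt D (node q r p.1 p.2)) ≤ gl D := by
  classical
  rw [← sum_gl D, ← Finset.sum_image (g := fun p : Fin q × Fin r => node q r p.1 p.2)
    (f := fun s => gl (prt D s))]
  · exact Finset.sum_le_sum_of_subset_of_nonneg (Finset.subset_univ _) fun _ _ _ => gl_nonneg
  · intro p _ p' _ h
    obtain ⟨h1, h2⟩ := node_inj h
    exact Prod.ext h1 h2

/-- the alternative -/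
theorem core (hq : 1 ≤ q) (hr' : 1 ≤ r) {hx hy X tl tr dt Λ C₅ c₀ κ ε' : ℝ}
    {g nd : Fin q × Fin r → ℝ} (hx1 : hx ≤ X) (hy1 : hy ≤ X) (hX : 0 ≤ X)
    (hκ : 0 < κ) (hκ1 : κ < 1 / 3) (hε' : 0 < ε') (hc₀ : 0 ≤ c₀) (hΛ : 0 ≤ Λ) (hC₅ : 0 ≤ C₅)
    (h1 : tr ≤ dt) (h2 : dt ≤ ((q : ℝ) - κ) * hx + ((r : ℝ) - κ) * hy + c₀)
    (h3 : tl ≤ q * hx + r * hy + C₅) (h4 : ∑ p, g p ≤ tl - tr)
    (h5 : ∀ p, g p - Λ ≤ nd p ∧ nd p ≤ g p + (q * hx + r * hy - tl) + C₅)
    (h6 : ((q : ℝ) - (κ + ε')) * hx + ((r : ℝ) - (κ + ε')) * hy < tr)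
    (h7 : ∀ p, (1 / ((q * r : ℕ) : ℝ) - ε') * (2 * κ * X) < g p)
    (h8 : q * hx + r * hy - ε' * X < tl) :
    |(q * hx + r * hy - dt) - κ * (hx + hy)| ≤ 2 * ε' * X + c₀ ∧
    ∀ p, |nd p - κ / ((q * r : ℕ) : ℝ) * (hx + hy)| ≤ (q * r + 2 : ℕ) * ε' * X + 2 * C₅ + Λ := by
  classical
  obtain ⟨N, hN⟩ : ∃ N : ℝ, N = ((q * r : ℕ) : ℝ) := ⟨_, rfl⟩
  have hN1 : 1 ≤ N := by
    rw [hN]
    exact_mod_cast Nat.mul_pos hq hr'
  have hN0 : 0 < N := by linarith
  have hεX : 0 ≤ ε' * X := by positivity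
  rw [← hN]
  rw [← hN] at h7
  have h6' : q * hx + r * hy - tr < κ * (hx + hy) + 2 * (ε' * X) := by nlinarith
  constructor
  · rw [abs_le]
    constructor <;> nlinarith
  · -- the lower bound for all the nodes
    have g1 : ∀ p, κ / N * (hx + hy) - ε' * X ≤ g p := by
      intro p
      refine le_trans ?_ (h7 p).le
      have e1 : (1 / N - ε') * (2 * κ * X) = κ / N * (2 * X) - 2 * κ * (ε' * X) := by
        field_simp
      rw [e1]
      have e2 : κ / N * (hx + hy) ≤ κ / N * (2 * X) :=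
        mul_le_mul_of_nonneg_left (by linarith) (by positivity)
      have e3 : 2 * κ * (ε' * X) ≤ 1 * (ε' * X) :=
        mul_le_mul_of_nonneg_right (by linarith) hεX
      linarith
    intro p
    have g2 : g p ≤ κ / N * (hx + hy) + (N + 1) * (ε' * X) + C₅ := by
      have e1 : g p + ∑ p' ∈ univ.erase p, g p' = ∑ p', g p' := Finset.add_sum_erase _ _ (mem_univ p)
      have e2 : (N - 1) * (κ / N * (hx + hy) - ε' * X) ≤ ∑ p' ∈ univ.erase p, g p' := by
        have e3 : ∑ _p' ∈ (univ : Finset (Fin q × Fin r)).erase p, (κ / N * (hx + hy) - ε' * X) ≤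
            ∑ p' ∈ univ.erase p, g p' := Finset.sum_le_sum fun p' _ => g1 p'
        rw [Finset.sum_const, Finset.card_erase_of_mem (mem_univ p), Finset.card_univ,
          Fintype.card_prod, Fintype.card_fin, Fintype.card_fin, nsmul_eq_mul,
          Nat.cast_sub (Nat.mul_pos hq hr'), Nat.cast_one, ← hN] at e3
        exact e3
      have e3 : (N - 1) * (κ / N * (hx + hy) - ε' * X) =
          κ * (hx + hy) - κ / N * (hx + hy) - (N - 1) * (ε' * X) := by
        field_simp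
      linarith
    obtain ⟨k1, k2⟩ := h5 p
    have e1 : ((q * r + 2 : ℕ) : ℝ) = N + 2 := by rw [hN]; push_cast; ring
    rw [e1, abs_le]
    have e2 : (N + 2) * ε' * X = N * (ε' * X) + 2 * (ε' * X) := by ring
    have e3 : 0 ≤ N * (ε' * X) := by positivity
    rw [e2]
    constructor <;> linarith [g1 p]

/-- proportions -/
theorem ratio3 {a C η c : ℝ} {W M N : ℝ → ℝ} (hη : 0 < η) (hη1 : η ≤ 1) (hC : 0 ≤ C) (ha : 2 < a)
    (hc : 0 < c) (hW : Tendsto W atTop atTop)
    (hM : ∃ X₀ : ℝ, ∀ X : ℝ, X₀ ≤ X → M X ≤ Real.exp (a * X + (1 - η) * W X) * c)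
    (hN : ∀ ε : ℝ, 0 < ε → ε < 1 → ∃ X₀ : ℝ, ∀ X : ℝ, X₀ ≤ X →
      Real.exp (a * X + (1 - ε) * W X) ≤ N X + C * Real.exp (2 * X)) :
    ∀ᶠ X : ℝ in atTop, M X ≤ Real.exp (-(η / 2 * W X)) * N X := by
  obtain ⟨X₁, h1⟩ := hM
  obtain ⟨X₂, h2⟩ := hN (η / 4) (by positivity) (by linarith)
  have hlin : Tendsto (fun X : ℝ => (a - 2) * X) atTop atTop :=
    tendsto_id.const_mul_atTop (by linarith)
  filter_upwards [eventually_ge_atTop X₁, eventually_ge_atTop X₂,
    hW.eventually_ge_atTop (4 * Real.log (2 * c + 2) / η), hW.eventually_ge_atTop 0,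
    hlin.eventually_ge_atTop (Real.log (2 * C + 2))] with X k1 k2 k3 k4 k5
  have e1 := h1 X k1
  have e2 := h2 X k2
  obtain ⟨w, hw⟩ : ∃ w : ℝ, w = W X := ⟨_, rfl⟩
  rw [← hw] at e1 e2 k3 k4 ⊢
  have hlog : Real.log (2 * c + 2) ≤ η / 4 * w := by
    rw [div_le_iff₀ hη] at k3
    linarith
  -- the error term in the lower bound
  have e3 : C * Real.exp (2 * X) ≤ 1 / 2 * Real.exp (a * X + (1 - η / 4) * w) := by
    have e4 : (2 * C + 2) ≤ Real.exp ((a - 2) * X) := by
      rw [← Real.exp_log (show 0 < 2 * C + 2 by positivity)]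
      exact Real.exp_le_exp.2 k5
    have e5 : Real.exp ((a - 2) * X) * Real.exp (2 * X) ≤ Real.exp (a * X + (1 - η / 4) * w) := by
      rw [← Real.exp_add]
      apply Real.exp_le_exp.2
      have : 0 ≤ (1 - η / 4) * w := mul_nonneg (by linarith) k4
      linarith
    have e6 := mul_le_mul_of_nonneg_right e4 (Real.exp_pos (2 * X)).le
    have e7 := Real.exp_pos (2 * X)
    nlinarith
  have e4 : 1 / 2 * Real.exp (a * X + (1 - η / 4) * w) ≤ N X := by linarith
  refine e1.trans (le_trans ?_ (mul_le_mul_of_nonneg_left e4 (Real.exp_pos _).le))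
  have e5 : c ≤ 1 / 2 * Real.exp (η / 4 * w) := by
    have e6 : 2 * c + 2 ≤ Real.exp (η / 4 * w) := by
      rw [← Real.exp_log (show 0 < 2 * c + 2 by positivity)]
      exact Real.exp_le_exp.2 hlog
    linarith
  have e6 : Real.exp (-(η / 2 * w)) * (1 / 2 * Real.exp (a * X + (1 - η / 4) * w)) =
      Real.exp (a * X + (1 - η) * w) * (1 / 2 * Real.exp (η / 4 * w)) := by
    have e7 : Real.exp (-(η / 2 * w)) * Real.exp (a * X + (1 - η / 4) * w) =
        Real.exp (a * X + (1 - η) * w) * Real.exp (η / 4 * w) := by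
      rw [← Real.exp_add, ← Real.exp_add]
      congr 1
      ring
    linear_combination (1 / 2) * e7
  rw [e6]
  exact mul_le_mul_of_nonneg_left e5 (Real.exp_pos _).le

theorem ratio_tendsto : Tendsto (fun X : ℝ => X / Real.log X) atTop atTop := by
  have h2 := Real.isLittleO_log_id_atTop
  have h3 : Tendsto (fun x : ℝ => Real.log x / x) atTop (𝓝 0) := h2.tendsto_div_nhds_zero
  have h4 : Tendsto (fun x : ℝ => Real.log x / x) atTop (𝓝[>] 0) := by
    refine tendsto_nhdsWithin_iff.2 ⟨h3, ?_⟩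
    filter_upwards [eventually_gt_atTop (1 : ℝ)] with x hx
    exact div_pos (Real.log_pos hx) (by linarith)
  refine (h4.inv_tendsto_nhdsGT_zero).congr fun x => ?_
  rw [Pi.inv_apply, inv_div]

/-- the second order term -/
noncomputable def Wg (c k ρ X : ℝ) : ℝ := c * (k * X / Real.log X) ^ ρ

theorem Wg_tendsto {c k ρ : ℝ} (hc : 0 < c) (hk : 0 < k) (hρ : 0 < ρ) :
    Tendsto (Wg c k ρ) atTop atTop := by
  have h1 : Tendsto (fun X : ℝ => k * X / Real.log X) atTop atTop := by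
    refine (ratio_tendsto.const_mul_atTop hk).congr fun X => ?_
    rw [mul_div_assoc]
  exact ((tendsto_rpow_atTop hρ).comp h1).const_mul_atTop hc

theorem Wg_small {c k ρ δ : ℝ} (hc : 0 < c) (hk : 0 < k) (hρ : 0 < ρ) (hρ1 : ρ < 1) (hδ : 0 < δ) :
    ∀ᶠ X : ℝ in atTop, Wg c k ρ X ≤ δ * X := by
  have h1 : Tendsto (fun X : ℝ => X ^ (1 - ρ)) atTop atTop := tendsto_rpow_atTop (by linarith)
  filter_upwards [h1.eventually_ge_atTop (c * k ^ ρ / δ), eventually_gt_atTop (1 : ℝ),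
    Real.tendsto_log_atTop.eventually_ge_atTop 1] with X h1 h2 h3
  have hX0 : 0 < X := by linarith
  unfold Wg
  have h4 : (k * X / Real.log X) ^ ρ ≤ (k * X) ^ ρ := by
    apply Real.rpow_le_rpow (by positivity) _ hρ.le
    exact div_le_self (by positivity) h3
  rw [Real.mul_rpow hk.le hX0.le] at h4
  rw [div_le_iff₀ hδ] at h1
  have h5 : X ^ (1 - ρ) * X ^ ρ = X := by
    rw [← Real.rpow_add hX0]
    simp
  have h6 : 0 < X ^ ρ := Real.rpow_pos_of_pos hX0 _
  calc c * (k * X / Real.log X) ^ ρ ≤ c * (k ^ ρ * X ^ ρ) := mul_le_mul_of_nonneg_left h4 hc.le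
    _ = (c * k ^ ρ) * X ^ ρ := by ring
    _ ≤ (X ^ (1 - ρ) * δ) * X ^ ρ := mul_le_mul_of_nonneg_right h1 h6.le
    _ = δ * (X ^ (1 - ρ) * X ^ ρ) := by ring
    _ = δ * X := by rw [h5]

theorem Wg_mono {c k ρ d : ℝ} (hc : 0 < c) (hk : 0 < k) (hρ : 0 < ρ) (hd : 1 ≤ d) :
    ∀ᶠ L : ℝ in atTop, c * k ^ ρ * (L / Real.log L) ^ ρ ≤ Wg c k ρ (d * L) := by
  filter_upwards [eventually_ge_atTop (Real.exp 1)] with L hL
  have h0 : 1 < Real.exp 1 := Real.one_lt_exp_iff.2 one_pos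
  have hL1 : 1 < L := by linarith
  have hdL : L ≤ d * L := by nlinarith
  have h1 := Real.log_div_self_antitoneOn (a := L) (b := d * L) hL (hL.trans hdL) hdL
  simp only at h1
  have hlL : 0 < Real.log L := Real.log_pos hL1
  have h2 : 0 < Real.log (d * L) / (d * L) :=
    div_pos (Real.log_pos (by linarith)) (by linarith)
  have h3 := inv_anti₀ h2 h1
  rw [inv_div, inv_div] at h3
  unfold Wg
  rw [mul_assoc]
  apply mul_le_mul_of_nonneg_left _ hc.le
  rw [← Real.mul_rpow hk.le (by positivity)]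
  apply Real.rpow_le_rpow (by positivity) _ hρ.le
  rw [mul_div_assoc]
  exact mul_le_mul_of_nonneg_left h3 hk.le

end Pool.Agent.U663.DS
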