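import Pool.Agent.U663.DS.Grid
import Pool.Agent.U663.SD.QPts

/-!
# Deep strata (helper663): the counting functions of the points of `P¹ × P¹`
-/

set_option autoImplicit false
set_option linter.unusedSectionVars false

namespace Pool.Agent.U663.DS

open NumberField IsDedekindDomain Finset Filter Topology Module
open Pool.Agent.H691R3 Pool.Agent.W223.AK Pool.Agent.N906.KG Pool.Agent.N645.KG
open Pool.Agent.N906.NT (Cx cst)
open Pool.Agent.U663.SD (lv_nonneg lv_out)

variable {K : Type} [Field K] [NumberField K] {q r : ℕ}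

open Pool.Agent.N170.KG (pr al_pr fin_pos lv_eq ht_rep of_rep off_of pt pt_rep pt_inj rep_eq_of
  rep_inf exp_hh pts pts_finite pts_count)

/-- the truncated counting function for the primes outside `T` -/
noncomputable def cntT (T : Set (Pr K)) (α : Fin q → Fin 2 → K) (β : Fin r → Fin 2 → K)
    (P Q : Projectivization K (Fin 2 → K)) : ℝ :=
  ∑ᶠ (v : HeightOneSpectrum (𝓞 K)) (_ : v ∉ T),
    min (Real.log (Ideal.absNorm v.asIdeal : ℝ) / (Module.finrank ℚ K : ℝ))
      (∑ i, lv v (α i) P + ∑ j, lv v (β j) Q)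

/-- the gain at the primes outside `T` at which the point reduces to the node `(a, b)` -/
noncomputable def nod (T : Set (Pr K)) (a b : Fin 2 → K) (P Q : Projectivization K (Fin 2 → K)) :
    ℝ :=
  ∑ᶠ (v : HeightOneSpectrum (𝓞 K)) (_ : v ∉ T ∧ 0 < lv v a P ∧ 0 < lv v b Q),
    (lv v a P + lv v b Q - Real.log (Ideal.absNorm v.asIdeal : ℝ) / (Module.finrank ℚ K : ℝ))

section

variable {T : Set (Pr K)} {S : Finset (Pr K)} (hTS : T ⊆ ↑S) {α : Fin q → Fin 2 → K}
  {β : Fin r → Fin 2 → K} (hα : ∀ i, α i ≠ 0) (hβ : ∀ j, β j ≠ 0)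
  {P Q : Projectivization K (Fin 2 → K)} (hP : P.rep 1 ≠ 0) (hQ : Q.rep 1 ≠ 0)
  (hoP : Off1 α P) (hoQ : Off1 β Q) {A : Fin q → Idl K} {B : Fin r → Idl K}
  (hA : IsP S (pr α) (P.rep 0 / P.rep 1) A) (hB : IsP S (pr β) (Q.rep 0 / Q.rep 1) B)

include hTS hα hβ hP hQ hoP hoQ hA hB in
theorem cntT_bounds : tr (ap A B) ≤ finrank ℚ K * cntT T α β P Q ∧
      finrank ℚ K * cntT T α β P Q ≤ tr (ap A B) + ∑ v ∈ S, Real.log (Nv v) := by
  classical
  have hd : (0 : ℝ) < finrank ℚ K := fin_pos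
  obtain ⟨m, hm⟩ : ∃ m : Pr K → ℝ, m = fun v => if v ∉ T then
    min (Real.log (Ideal.absNorm v.asIdeal : ℝ) / (finrank ℚ K : ℝ))
      (∑ i, lv v (α i) P + ∑ j, lv v (β j) Q) else 0 := ⟨_, rfl⟩
  have hout : ∀ v, v ∉ S → finrank ℚ K * m v = if v ∈ sp (ap A B) then Real.log (Nv v) else 0 := by
    intro v hv
    have hvT : v ∉ T := fun h => hv (hTS h)
    rw [hm]
    simp only [hvT, not_false_eq_true, if_true]
    rw [mul_min_of_nonneg _ _ hd.le, mul_div_cancel₀ _ hd.ne', mul_add, mul_sum, mul_sum]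
    have e1 : ∀ i, (finrank ℚ K : ℝ) * lv v (α i) P = A i v * Real.log (Nv v) := by
      intro i
      rw [lv_out hP hA i hv, mul_div_cancel₀ _ hd.ne']
    have e2 : ∀ j, (finrank ℚ K : ℝ) * lv v (β j) Q = B j v * Real.log (Nv v) := by
      intro j
      rw [lv_out hQ hB j hv, mul_div_cancel₀ _ hd.ne']
    rw [sum_congr rfl fun i _ => e1 i, sum_congr rfl fun j _ => e2 j,
      ← sum_mul, ← sum_mul, ← add_mul, ← Nat.cast_sum, ← Nat.cast_sum, ← Nat.cast_add,
      ← Pool.Agent.N170.KG.sum_ap]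
    have hl := log_Nv_pos v
    show min (Real.log (Nv v)) _ = _
    split_ifs with h
    · have h1 : 1 ≤ ∑ i, ap A B i v := by
        rw [Nat.one_le_iff_ne_zero]
        intro h2
        exact (Pool.Agent.N170.KG.notMem_sp _ _).2 h2 h
      have h2 : (1 : ℝ) ≤ ((∑ i, ap A B i v : ℕ) : ℝ) := by exact_mod_cast h1
      exact min_eq_left (by nlinarith)
    · rw [(Pool.Agent.N170.KG.notMem_sp _ _).1 h, Nat.cast_zero, zero_mul]
      exact min_eq_right hl.le
  have hin : ∀ v, 0 ≤ finrank ℚ K * m v ∧ finrank ℚ K * m v ≤ Real.log (Nv v) := by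
    intro v
    have hl := log_Nv_pos v
    by_cases hvT : v ∈ T
    · rw [hm]
      simp only [hvT, not_true_eq_false, if_false, mul_zero]
      exact ⟨le_rfl, hl.le⟩
    · rw [hm]
      simp only [hvT, not_false_eq_true, if_true]
      rw [mul_min_of_nonneg _ _ hd.le, mul_div_cancel₀ _ hd.ne']
      refine ⟨le_min hl.le (mul_nonneg hd.le (add_nonneg ?_ ?_)), min_le_left _ _⟩
      · exact sum_nonneg fun i _ => lv_nonneg hα hP hoP i v
      · exact sum_nonneg fun i _ => lv_nonneg hβ hQ hoQ i v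
  have hdis : Disjoint (sp (ap A B)) S := by
    rw [Finset.disjoint_left]
    intro v hv hvS
    refine (Pool.Agent.N170.KG.notMem_sp (ap A B) v).2 ?_ hv
    rw [Pool.Agent.N170.KG.sum_ap, sum_eq_zero fun i _ => hA.1 i v hvS,
      sum_eq_zero fun i _ => hB.1 i v hvS, add_zero]
  have hsupp : Function.support m ⊆ ((sp (ap A B) ∪ S : Finset (Pr K)) : Set (Pr K)) := by
    intro v hv
    rw [coe_union]
    by_contra hcon
    rw [Set.mem_union, not_or] at hcon
    have h1 := hout v hcon.2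
    rw [if_neg (fun h => hcon.1 (mem_coe.2 h))] at h1
    exact hv ((mul_eq_zero.1 h1).resolve_left hd.ne')
  have hsum : (finrank ℚ K : ℝ) * cntT T α β P Q = tr (ap A B) + ∑ v ∈ S, finrank ℚ K * m v := by
    have h1 : cntT T α β P Q = ∑ v ∈ sp (ap A B) ∪ S, m v := by
      unfold cntT
      rw [← finsum_eq_sum_of_support_subset _ hsupp]
      refine finsum_congr fun v => ?_
      rw [finsum_eq_if, hm]
    rw [h1, mul_sum, sum_union hdis]
    congr 1
    unfold tr
    refine sum_congr rfl fun v hv => ?_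
    rw [hout v (Finset.disjoint_left.1 hdis hv), if_pos hv]
  rw [hsum]
  constructor
  · have : 0 ≤ ∑ v ∈ S, finrank ℚ K * m v := sum_nonneg fun v _ => (hin v).1
    linarith
  · have : ∑ v ∈ S, finrank ℚ K * m v ≤ ∑ v ∈ S, Real.log (Nv v) :=
      sum_le_sum fun v _ => (hin v).2
    linarith

/-- the face of a node -/
theorem fc_node (hcA : ∀ l l', l ≠ l' → Cop (A l) (A l')) (hcB : ∀ l l', l ≠ l' → Cop (B l) (B l'))
    (i : Fin q) (j : Fin r) (v : Pr K) :
    fc (ap A B) v = node q r i j ↔ A i v ≠ 0 ∧ B j v ≠ 0 := by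
  have a1 : ∀ l, ap A B (Fin.castAdd r l) = A l := fun l => by unfold ap; rw [Fin.append_left]
  have a2 : ∀ l, ap A B (Fin.natAdd q l) = B l := fun l => by unfold ap; rw [Fin.append_right]
  constructor
  · intro h
    have h1 : Fin.castAdd r i ∈ fc (ap A B) v := by rw [h]; simp [node]
    have h2 : Fin.natAdd q j ∈ fc (ap A B) v := by rw [h]; simp [node]
    rw [mem_fc, a1] at h1
    rw [mem_fc, a2] at h2
    exact ⟨h1, h2⟩
  · rintro ⟨h1, h2⟩
    ext k
    rw [mem_fc, node, mem_insert, mem_singleton]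
    refine Fin.addCases (fun l => ?_) (fun l => ?_) k
    · rw [a1]
      constructor
      · intro h3
        left
        by_contra hne
        have hli : l ≠ i := fun h => hne (by rw [h])
        rcases hcA l i hli v with h4 | h4
        · exact h3 h4
        · exact h1 h4
      · rintro (h3 | h3)
        · rw [Fin.castAdd_injective q r h3]
          exact h1
        · exact absurd h3 (cast_ne_nat l j)
    · rw [a2]
      constructor
      · intro h3
        right
        by_contra hne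
        have hli : l ≠ j := fun h => hne (by rw [h])
        rcases hcB l j hli v with h4 | h4
        · exact h3 h4
        · exact h2 h4
      · rintro (h3 | h3)
        · exact absurd h3.symm (cast_ne_nat i l)
        · rw [Fin.natAdd_injective r q h3]
          exact h2

include hTS hα hβ hP hQ hoP hoQ hA hB in
theorem nod_bounds (hcA : ∀ l l', l ≠ l' → Cop (A l) (A l'))
    (hcB : ∀ l l', l ≠ l' → Cop (B l) (B l')) (i : Fin q) (j : Fin r) :
    gl (prt (ap A B) (node q r i j)) - ∑ v ∈ S, Real.log (Nv v) ≤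
      finrank ℚ K * nod T (α i) (β j) P Q ∧
    finrank ℚ K * nod T (α i) (β j) P Q ≤ gl (prt (ap A B) (node q r i j)) +
      ∑ v ∈ S, finrank ℚ K * (lv v (α i) P + lv v (β j) Q) := by
  classical
  have hd : (0 : ℝ) < finrank ℚ K := fin_pos
  obtain ⟨m, hm⟩ : ∃ m : Pr K → ℝ, m = fun v => if v ∉ T ∧ 0 < lv v (α i) P ∧ 0 < lv v (β j) Q then
    (lv v (α i) P + lv v (β j) Q - Real.log (Ideal.absNorm v.asIdeal : ℝ) / (finrank ℚ K : ℝ))
      else 0 := ⟨_, rfl⟩
  obtain ⟨N, hN⟩ : ∃ N : Finset (Pr K), N = (sp (ap A B)).filter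
    (fun v => fc (ap A B) v = node q r i j) := ⟨_, rfl⟩
  have hmN : ∀ v, v ∈ N ↔ A i v ≠ 0 ∧ B j v ≠ 0 := by
    intro v
    rw [hN, mem_filter, fc_node hcA hcB]
    constructor
    · exact fun h => h.2
    · intro h
      refine ⟨?_, h⟩
      rw [mem_sp]
      refine ⟨Fin.castAdd r i, ?_⟩
      unfold ap
      rw [Fin.append_left]
      exact h.1
  have hpos : ∀ (a : ℕ) (v : Pr K), (0 : ℝ) < a * Real.log (Nv v) / finrank ℚ K ↔ a ≠ 0 := by
    intro a v
    have hl := log_Nv_pos v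
    constructor
    · rintro h rfl
      simp at h
    · intro h
      have : (0 : ℝ) < a := by exact_mod_cast Nat.pos_of_ne_zero h
      positivity
  have hout : ∀ v, v ∉ S → finrank ℚ K * m v = if v ∈ N then
      ((A i v : ℝ) + B j v - 1) * Real.log (Nv v) else 0 := by
    intro v hv
    have hvT : v ∉ T := fun h => hv (hTS h)
    rw [hm]
    simp only
    rw [lv_out hP hA i hv, lv_out hQ hB j hv]
    by_cases h : v ∈ N
    · obtain ⟨h', h''⟩ := (hmN v).1 h
      rw [if_pos h, if_pos ⟨hvT, (hpos _ v).2 h', (hpos _ v).2 h''⟩]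
      show (finrank ℚ K : ℝ) * (_ - Real.log (Nv v) / _) = _
      field_simp
    · rw [if_neg h, if_neg (fun h' => h ((hmN v).2 ⟨(hpos _ v).1 h'.2.1, (hpos _ v).1 h'.2.2⟩)),
        mul_zero]
  have hin : ∀ v, -Real.log (Nv v) ≤ finrank ℚ K * m v ∧
      finrank ℚ K * m v ≤ finrank ℚ K * (lv v (α i) P + lv v (β j) Q) := by
    intro v
    have hl := log_Nv_pos v
    have l1 := lv_nonneg hα hP hoP i v
    have l2 := lv_nonneg hβ hQ hoQ j v
    have l3 : 0 ≤ (finrank ℚ K : ℝ) * (lv v (α i) P + lv v (β j) Q) := by positivity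
    rw [hm]
    simp only
    split_ifs with h
    · have e1 : (finrank ℚ K : ℝ) * (lv v (α i) P + lv v (β j) Q -
          Real.log (Ideal.absNorm v.asIdeal : ℝ) / (finrank ℚ K : ℝ)) =
          finrank ℚ K * (lv v (α i) P + lv v (β j) Q) - Real.log (Nv v) := by
        show (finrank ℚ K : ℝ) * (_ - Real.log (Nv v) / _) = _
        field_simp
      rw [e1]
      constructor <;> linarith
    · rw [mul_zero]
      exact ⟨by linarith, l3⟩
  have hdis : Disjoint N S := by
    rw [Finset.disjoint_left]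
    intro v hv hvS
    exact ((hmN v).1 hv).1 (hA.1 i v hvS)
  have hsupp : Function.support m ⊆ ((N ∪ S : Finset (Pr K)) : Set (Pr K)) := by
    intro v hv
    rw [coe_union]
    by_contra hcon
    rw [Set.mem_union, not_or] at hcon
    have h1 := hout v hcon.2
    rw [if_neg (fun h => hcon.1 (mem_coe.2 h))] at h1
    exact hv ((mul_eq_zero.1 h1).resolve_left hd.ne')
  have hgl : gl (prt (ap A B) (node q r i j)) =
      ∑ v ∈ N, ((A i v : ℝ) + B j v - 1) * Real.log (Nv v) := by
    have hne : node q r i j ≠ ∅ := by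
      rw [← Finset.nonempty_iff_ne_empty, ← Finset.card_pos, node_card]
      norm_num
    rw [prt_gl _ hne, ← hN]
    refine Finset.sum_congr rfl fun v hv => ?_
    rw [hN, mem_filter] at hv
    have e1 : ∑ k, ap A B k v = A i v + B j v := by
      have e2 : ∑ k ∈ node q r i j, ap A B k v = ∑ k, ap A B k v := by
        refine Finset.sum_subset (Finset.subset_univ _) fun k _ hk => ?_
        rw [← hv.2, mem_fc, not_not] at hk
        exact hk
      rw [← e2, node, Finset.sum_pair (cast_ne_nat i j)]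
      unfold ap
      rw [Fin.append_left, Fin.append_right]
    rw [e1]
    push_cast
    ring
  have hsum : (finrank ℚ K : ℝ) * nod T (α i) (β j) P Q =
      gl (prt (ap A B) (node q r i j)) + ∑ v ∈ S, finrank ℚ K * m v := by
    have h1 : nod T (α i) (β j) P Q = ∑ v ∈ N ∪ S, m v := by
      unfold nod
      rw [← finsum_eq_sum_of_support_subset _ hsupp]
      refine finsum_congr fun v => ?_
      rw [finsum_eq_if, hm]
    rw [h1, mul_sum, sum_union hdis, hgl]
    congr 1
    refine sum_congr rfl fun v hv => ?_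
    rw [hout v (Finset.disjoint_left.1 hdis hv), if_pos hv]
  rw [hsum]
  constructor
  · have : ∑ v ∈ S, -Real.log (Nv v) ≤ ∑ v ∈ S, finrank ℚ K * m v :=
      sum_le_sum fun v _ => (hin v).1
    rw [Finset.sum_neg_distrib] at this
    linarith
  · have : ∑ v ∈ S, finrank ℚ K * m v ≤
        ∑ v ∈ S, finrank ℚ K * (lv v (α i) P + lv v (β j) Q) :=
      sum_le_sum fun v _ => (hin v).2
    linarith

end

/-- the closeness of a point at the places of `S` -/
theorem close_le {S : Finset (Pr K)} {α : Fin q → Fin 2 → K}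
    {C : ℝ} {P : Projectivization K (Fin 2 → K)} (hP : P.rep 1 ≠ 0)
    {A : Fin q → Idl K} (h1 : |(q : ℝ) * hr (aff (P.rep 0 / P.rep 1)) - tl A -
      ∑ l, ∑ v ∈ Spl S, lam v (aff (P.rep 0 / P.rep 1)) (pr α l)| ≤ C)
    (h2 : ∀ v ∈ Spl S, ∀ l, -(loss v) ≤ lam v (aff (P.rep 0 / P.rep 1)) (pr α l)) (i : Fin q) :
    ∑ v ∈ S, (finrank ℚ K : ℝ) * lv v (α i) P ≤
      (q * hr (aff (P.rep 0 / P.rep 1)) - tl A) + C + q * ∑ v ∈ Spl S, loss v := by
  classical
  obtain ⟨f, hf⟩ : ∃ f : Fin q → Pl K → ℝ, f = fun l v =>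
    lam v (aff (P.rep 0 / P.rep 1)) (pr α l) + loss v := ⟨_, rfl⟩
  have hf0 : ∀ l, ∀ v ∈ Spl S, 0 ≤ f l v := by
    intro l v hv
    rw [hf]
    have := h2 v hv l
    simp only
    linarith
  have e1 : ∑ v ∈ S, (finrank ℚ K : ℝ) * lv v (α i) P ≤ ∑ v ∈ Spl S, f i v := by
    have e2 : ∑ v ∈ S, (finrank ℚ K : ℝ) * lv v (α i) P ≤
        ∑ v ∈ S, f i (Sum.inr v : Pl K) := by
      refine Finset.sum_le_sum fun v _ => ?_
      rw [mul_comm, lv_eq v _ hP, hf]
      have := loss_nonneg (Sum.inr v : Pl K)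
      have e3 : pr α i = (α i 0, α i 1) := rfl
      simp only [e3]
      linarith
    refine e2.trans ?_
    have e3 : S.map ⟨Sum.inr, Sum.inr_injective⟩ ⊆ Spl S := by
      intro w hw
      rw [Finset.mem_map] at hw
      obtain ⟨v, hv, rfl⟩ := hw
      unfold Spl
      simp only [Function.Embedding.coeFn_mk]
      rw [Finset.mem_disjSum]
      exact Or.inr ⟨v, hv, rfl⟩
    have e4 : ∑ v ∈ S, f i (Sum.inr v : Pl K) =
        ∑ w ∈ S.map ⟨Sum.inr, Sum.inr_injective⟩, f i w := by
      rw [Finset.sum_map]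
      rfl
    rw [e4]
    exact Finset.sum_le_sum_of_subset_of_nonneg e3 fun w hw _ => hf0 i w hw
  have e2 : ∑ v ∈ Spl S, f i v ≤ ∑ l, ∑ v ∈ Spl S, f l v :=
    Finset.single_le_sum (f := fun l => ∑ v ∈ Spl S, f l v)
      (fun l _ => Finset.sum_nonneg fun v hv => hf0 l v hv) (mem_univ i)
  have e3 : ∑ l, ∑ v ∈ Spl S, f l v =
      ∑ l, ∑ v ∈ Spl S, lam v (aff (P.rep 0 / P.rep 1)) (pr α l) + q * ∑ v ∈ Spl S, loss v := by
    rw [hf]
    simp only [Finset.sum_add_distrib, Finset.sum_const, Finset.card_univ, Fintype.card_fin,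
      nsmul_eq_mul]
  have e4 := (abs_le.1 h1).1
  linarith

end Pool.Agent.U663.DS
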