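import Pool.Agent.N906.KG.Stm
import Pool.Agent.N755.NT_UPA

/-!
# Deep strata (helper663): the choice of the parameter of Rankin's method
-/

set_option autoImplicit false

namespace Pool.Agent.U663.DS

open Finset Filter Topology
open Pool.Agent.N906.NT (Cx cst)
open Pool.Agent.N755.NT (cst_pow cst_pos rpow_frac)

/-- `1 / (s (s u log (1/u))^s)` -/
noncomputable def Sf (s : ℕ) (u : ℝ) : ℝ := 1 / (s * (s * (u * Real.log (1 / u))) ^ s)

/-- the choice of `u` -/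
theorem num2 {r t : ℕ} {u₀ : ℝ} (hr : 1 ≤ r) (ht : 1 ≤ t) (hu₀ : 0 < u₀) :
    ∀ᶠ x : ℝ in atTop, ∃ u : ℝ, 0 < u ∧ u < u₀ ∧ t * Sf r u ≤ u * x / r ∧
      cst r t * (x / Real.log x) ^ ((r : ℝ) / (r + 1)) = ((r : ℝ) + 1) / r * (u * x) := by
  have hr0 : (0 : ℝ) < r := by exact_mod_cast hr
  have ht0 : (0 : ℝ) < t := by exact_mod_cast ht
  obtain ⟨c, hc⟩ : ∃ c : ℝ, c = t * (((r : ℝ) + 1) / r) ^ r := ⟨_, rfl⟩
  have hc0 : 0 < c := by rw [hc]; positivity
  filter_upwards [Real.tendsto_log_atTop.eventually_ge_atTop c,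
    eventually_gt_atTop (1 / u₀ ^ (r + 1)), Real.tendsto_log_atTop.eventually_ge_atTop 1,
    eventually_ge_atTop (1 : ℝ)] with x h1 h2 h3 h4
  have hx0 : 0 < x := by linarith
  obtain ⟨l, hl⟩ : ∃ l : ℝ, l = Real.log x := ⟨_, rfl⟩
  rw [← hl] at h1 h3 ⊢
  have hl0 : 0 < l := by linarith
  obtain ⟨u, hu⟩ : ∃ u : ℝ, u = (c / (x * l ^ r)) ^ (1 / ((r : ℝ) + 1)) := ⟨_, rfl⟩
  have hq0 : 0 < c / (x * l ^ r) := by positivity
  have hu0 : 0 < u := by rw [hu]; exact Real.rpow_pos_of_pos hq0 _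
  have hu2 : u ^ (r + 1) = c / (x * l ^ r) := by
    rw [hu, ← Real.rpow_natCast (_ ^ _) (r + 1), ← Real.rpow_mul hq0.le]
    push_cast
    rw [one_div, inv_mul_cancel₀ (by positivity), Real.rpow_one]
  have hll : c ≤ l ^ r := by
    refine h1.trans ?_
    calc l = l ^ 1 := (pow_one l).symm
      _ ≤ l ^ r := pow_le_pow_right₀ h3 hr
  have hux : u ^ (r + 1) ≤ 1 / x := by
    rw [hu2, div_le_div_iff₀ (by positivity) hx0]
    nlinarith
  refine ⟨u, hu0, ?_, ?_, ?_⟩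
  · refine lt_of_pow_lt_pow_left₀ (r + 1) hu₀.le (hux.trans_lt ?_)
    rw [div_lt_iff₀ hx0]
    rw [div_lt_iff₀ (by positivity)] at h2
    linarith
  · have hlog : l / (r + 1) ≤ Real.log (1 / u) := by
      have h6 : x ≤ (1 / u) ^ (r + 1) := by
        rw [div_pow, one_pow, le_div_iff₀ (by positivity)]
        rw [le_div_iff₀ hx0] at hux
        linarith
      have h7 := Real.log_le_log hx0 h6
      rw [Real.log_pow, ← hl] at h7
      push_cast at h7
      rw [div_le_iff₀ (by positivity)]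
      linarith
    obtain ⟨a, ha⟩ : ∃ a : ℝ, a = u * x := ⟨_, rfl⟩
    have ha0 : 0 < a := by rw [ha]; positivity
    have h9 : 0 < Real.log (1 / u) := lt_of_lt_of_le (by positivity) hlog
    have h10 : (t : ℝ) ≤ a * (r * (u * (l / (r + 1)))) ^ r := by
      have h11 : a * (r * (u * (l / (r + 1)))) ^ r =
          u ^ (r + 1) * (x * l ^ r) * (r / (r + 1)) ^ r := by
        rw [ha, mul_pow, mul_pow, div_pow, div_pow, pow_succ]
        ring
      rw [h11, hu2, div_mul_cancel₀ _ (by positivity), hc, mul_assoc, ← mul_pow]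
      have : ((r : ℝ) + 1) / r * (r / (r + 1)) = 1 := by field_simp
      rw [this, one_pow, mul_one]
    have h12 : a * (r * (u * (l / (r + 1)))) ^ r ≤ a * (r * (u * Real.log (1 / u))) ^ r := by
      apply mul_le_mul_of_nonneg_left _ ha0.le
      apply pow_le_pow_left₀ (by positivity)
      apply mul_le_mul_of_nonneg_left _ hr0.le
      exact mul_le_mul_of_nonneg_left hlog hu0.le
    unfold Sf
    rw [← ha, mul_one_div, div_le_div_iff₀ (by positivity) hr0]
    nlinarith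
  · obtain ⟨a, ha⟩ : ∃ a : ℝ, a = u * x := ⟨_, rfl⟩
    have ha0 : 0 < a := by rw [ha]; positivity
    refine (pow_left_inj₀ (n := r + 1) (by have := cst_pos hr ht; positivity) (by positivity) (by omega)).1 ?_
    rw [mul_pow, cst_pow t hr, rpow_frac (by positivity), mul_pow]
    have e1 : (u * x) ^ (r + 1) = u ^ (r + 1) * x ^ (r + 1) := by
      rw [mul_pow]
    rw [e1, hu2, hc, div_pow x l r, show 2 * r + 1 = (r + 1) + r by ring, pow_add,
      pow_succ x r]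
    field_simp

theorem small_log {u : ℝ} (hu : 0 < u) : u * Real.log (1 / u) ≤ 2 * √u := by
  have h1 : Real.log (1 / u) = 2 * Real.log (1 / √u) := by
    have h2 : (1 / √u) ^ 2 = 1 / u := by
      rw [div_pow, one_pow, Real.sq_sqrt hu.le]
    rw [← h2, Real.log_pow]
    push_cast
    ring
  have h3 : 0 < √u := Real.sqrt_pos.2 hu
  have h4 : Real.log (1 / √u) ≤ 1 / √u := (Real.log_le_sub_one_of_pos (by positivity)).trans (by linarith)
  rw [h1]
  calc u * (2 * Real.log (1 / √u)) ≤ u * (2 * (1 / √u)) := by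
        apply mul_le_mul_of_nonneg_left _ hu.le
        linarith
    _ = 2 * √u := by
        rw [mul_one_div, mul_div_assoc', mul_comm u 2, mul_div_assoc, Real.div_sqrt]

theorem Sf_nonneg {s : ℕ} {u : ℝ} (hu : 0 < u) (hu1 : u < 1) : 0 ≤ Sf s u := by
  have h1 : 0 < Real.log (1 / u) := Real.log_pos (by rw [one_lt_div hu]; exact hu1)
  unfold Sf
  positivity

/-- faces of small dimension do not matter -/
theorem Sf_low {r : ℕ} {ε : ℝ} (hε : 0 < ε) : ∃ u₁ : ℝ, 0 < u₁ ∧ u₁ ≤ 1 / 2 ∧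
    ∀ u : ℝ, 0 < u → u < u₁ → ∀ s : ℕ, 1 ≤ s → s < r → Sf s u ≤ ε * Sf r u := by
  obtain ⟨δ, hδ⟩ : ∃ δ : ℝ, δ = min 1 (ε / (r : ℝ) ^ (r + 1)) := ⟨_, rfl⟩
  rcases Nat.eq_zero_or_pos r with rfl | hr
  · exact ⟨1 / 2, by norm_num, le_rfl, fun u _ _ s _ hs => absurd hs (Nat.not_lt_zero _)⟩
  have hr0 : (0 : ℝ) < r := by exact_mod_cast hr
  have hδ0 : 0 < δ := by rw [hδ]; exact lt_min one_pos (by positivity)
  have hδ1 : δ ≤ 1 := by rw [hδ]; exact min_le_left _ _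
  have hδε : δ * (r : ℝ) ^ (r + 1) ≤ ε := by
    have : δ ≤ ε / (r : ℝ) ^ (r + 1) := by rw [hδ]; exact min_le_right _ _
    rwa [le_div_iff₀ (by positivity)] at this
  refine ⟨min (1 / 2) ((δ / 2) ^ 2), lt_min (by norm_num) (by positivity), min_le_left _ _,
    fun u hu0 hu s hs1 hsr => ?_⟩
  have hu1 : u < 1 / 2 := hu.trans_le (min_le_left _ _)
  have hu2 : u < (δ / 2) ^ 2 := hu.trans_le (min_le_right _ _)
  have hl : 0 < Real.log (1 / u) := Real.log_pos (by rw [one_lt_div hu0]; linarith)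
  obtain ⟨x, hx⟩ : ∃ x : ℝ, x = u * Real.log (1 / u) := ⟨_, rfl⟩
  have hx0 : 0 < x := by rw [hx]; positivity
  have hxδ : x ≤ δ := by
    rw [hx]
    refine (small_log hu0).trans ?_
    have : √u ≤ δ / 2 := by
      apply Real.sqrt_le_iff.2
      exact ⟨by positivity, hu2.le⟩
    linarith
  have hs0 : (1 : ℝ) ≤ s := by exact_mod_cast hs1
  unfold Sf
  rw [← hx, mul_one_div, div_le_div_iff₀ (by positivity) (by positivity), one_mul]
  obtain ⟨m, hm⟩ := Nat.exists_eq_add_of_lt hsr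
  have hxm : x ^ (m + 1) ≤ δ := by
    rw [pow_succ]
    have : x ^ m ≤ 1 := pow_le_one₀ hx0.le (hxδ.trans hδ1)
    nlinarith
  have e1 : (r : ℝ) * (r * x) ^ r = (x ^ (m + 1) * (r : ℝ) ^ (r + 1)) * x ^ s := by
    rw [mul_pow]
    have : x ^ r = x ^ (m + 1) * x ^ s := by
      rw [← pow_add]
      congr 1
      omega
    rw [this]
    ring
  rw [e1]
  have e2 : x ^ (m + 1) * (r : ℝ) ^ (r + 1) ≤ ε :=
    (mul_le_mul_of_nonneg_right hxm (by positivity)).trans hδε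
  have e3 : x ^ s ≤ s * (s * x) ^ s := by
    have e4 : x ^ s ≤ (s * x) ^ s := pow_le_pow_left₀ hx0.le (by nlinarith) s
    have e5 : 0 ≤ (s * x) ^ s := by positivity
    nlinarith
  exact mul_le_mul e2 e3 (by positivity) hε.le

/-- the effect of a tilt -/
theorem Sf_tilt {r : ℕ} (hr : 1 ≤ r) {ε θ : ℝ} (hε : 0 < ε) (hθ : 0 ≤ θ) (hθ1 : θ ≤ 1) :
    ∃ u₁ : ℝ, 0 < u₁ ∧ u₁ ≤ 1 / 4 ∧ ∀ u : ℝ, 0 < u → u < u₁ →
      Sf r ((1 + θ) * u) ≤ (1 + ε) / (1 + r * θ) * Sf r u := by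
  have hr0 : (0 : ℝ) < r := by exact_mod_cast hr
  -- `δ` with `(1 / (1 - δ)) ^ r ≤ 1 + ε`
  obtain ⟨δ, hδ0, hδ1, hδ⟩ : ∃ δ : ℝ, 0 < δ ∧ δ < 1 ∧ 1 ≤ (1 + ε) * (1 - δ) ^ r := by
    have hc : Tendsto (fun δ : ℝ => (1 + ε) * (1 - δ) ^ r) (𝓝[>] 0)
        (𝓝 ((1 + ε) * (1 - 0) ^ r)) := by
      refine tendsto_nhdsWithin_of_tendsto_nhds ?_
      exact ((tendsto_id.const_sub 1).pow r).const_mul (1 + ε)
    rw [sub_zero, one_pow, mul_one] at hc
    have h5 := hc.eventually (lt_mem_nhds (show (1 : ℝ) < 1 + ε by linarith))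
    have h6 : ∀ᶠ δ : ℝ in 𝓝[>] 0, δ < 1 :=
      (tendsto_nhdsWithin_of_tendsto_nhds tendsto_id).eventually (gt_mem_nhds (by norm_num))
    obtain ⟨δ, g1, g2, g3⟩ := (h5.and (h6.and self_mem_nhdsWithin)).exists
    exact ⟨δ, g3, g2, g1.le⟩
  refine ⟨min (1 / 4) (Real.exp (-(Real.log 2 / δ))), lt_min (by norm_num) (Real.exp_pos _),
    min_le_left _ _, fun u hu0 hu => ?_⟩
  have hu1 : u < 1 / 4 := hu.trans_le (min_le_left _ _)
  have hu2 : u < Real.exp (-(Real.log 2 / δ)) := hu.trans_le (min_le_right _ _)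
  have hl : Real.log (1 / u) = -Real.log u := by rw [one_div, Real.log_inv]
  have hlu : Real.log 2 / δ ≤ Real.log (1 / u) := by
    have := Real.log_lt_log hu0 hu2
    rw [Real.log_exp] at this
    rw [hl]
    linarith
  have hl2 : 0 < Real.log 2 := Real.log_pos (by norm_num)
  have hl0 : 0 < Real.log (1 / u) := lt_of_lt_of_le (by positivity) hlu
  have h1 : Real.log (1 / ((1 + θ) * u)) = Real.log (1 / u) - Real.log (1 + θ) := by
    rw [one_div, Real.log_inv, Real.log_mul (by positivity) hu0.ne', hl]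
    ring
  have h2 : (1 - δ) * Real.log (1 / u) ≤ Real.log (1 / ((1 + θ) * u)) := by
    rw [h1]
    rw [div_le_iff₀ hδ0] at hlu
    have : Real.log (1 + θ) ≤ Real.log 2 := Real.log_le_log (by positivity) (by linarith)
    linarith
  have h3 : 0 < Real.log (1 / ((1 + θ) * u)) := lt_of_lt_of_le (mul_pos (by linarith) hl0) h2
  have hB : 1 + r * θ ≤ (1 + θ) ^ r := by
    have := one_add_mul_le_pow (show (-2 : ℝ) ≤ θ by linarith) r
    linarith
  unfold Sf
  rw [div_mul_div_comm, mul_one, div_le_div_iff₀ (by positivity) (by positivity), one_mul]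
  have e1 : (1 + r * θ) * (r * (r * (u * Real.log (1 / u))) ^ r) =
      r * r ^ r * u ^ r * Real.log (1 / u) ^ r * (1 + r * θ) := by
    rw [mul_pow, mul_pow]
    ring
  have e2 : (1 + ε) * (r * (r * ((1 + θ) * u * Real.log (1 / ((1 + θ) * u)))) ^ r) =
      r * r ^ r * u ^ r * ((1 + θ) ^ r * ((1 + ε) * Real.log (1 / ((1 + θ) * u)) ^ r)) := by
    rw [mul_pow, mul_pow, mul_pow]
    ring
  rw [e1, e2]
  have e3 : Real.log (1 / u) ^ r ≤ (1 + ε) * Real.log (1 / ((1 + θ) * u)) ^ r := by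
    calc Real.log (1 / u) ^ r = 1 * Real.log (1 / u) ^ r := (one_mul _).symm
      _ ≤ ((1 + ε) * (1 - δ) ^ r) * Real.log (1 / u) ^ r :=
          mul_le_mul_of_nonneg_right hδ (by positivity)
      _ = (1 + ε) * ((1 - δ) * Real.log (1 / u)) ^ r := by rw [mul_pow]; ring
      _ ≤ _ := by
          apply mul_le_mul_of_nonneg_left _ (by positivity)
          exact pow_le_pow_left₀ (mul_nonneg (by linarith) hl0.le) h2 r
  rw [mul_assoc (r * r ^ r * u ^ r)]
  apply mul_le_mul_of_nonneg_left _ (by positivity)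
  rw [mul_comm (Real.log (1 / u) ^ r)]
  exact mul_le_mul hB e3 (by positivity) (by positivity)

end Pool.Agent.U663.DS
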