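import Pool.Agent.U663.DS.Face

/-!
# Deep strata (helper663): Rankin's method with a deficient face
-/

set_option autoImplicit false
set_option linter.unusedSectionVars false

namespace Pool.Agent.U663.DS

open NumberField IsDedekindDomain Finset Filter Topology Pool.Agent.H691R3 Pool.Agent.W223.AK
open Pool.Agent.N906.NT (Cx cst)
open Pool.Agent.N906.KG Pool.Agent.N645.KG

variable {K : Type} [Field K] [NumberField K] {n : ℕ}

/-- GUPK for the faces of a simplex -/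
theorem gup (hG : S_GUPK K) (n : ℕ) {ε : ℝ} (hε : 0 < ε) : ∃ u₀ : ℝ, 0 < u₀ ∧ ∀ u : ℝ, 0 < u →
    u < u₀ → ∀ s : Finset (Fin n), s.Nonempty → ∀ F : Finset (Fin n → Idl K),
      (∀ D ∈ F, Tp s.powerset D ∧ Sq D) →
      ∑ D ∈ F, Real.exp (-(u * gl D) - tr D) ≤ Real.exp ((1 + ε) * Sf s.card u) := by
  classical
  have h : ∀ s : Finset (Fin n), ∃ u₀ : ℝ, 0 < u₀ ∧ (s.Nonempty → ∀ u : ℝ, 0 < u →
      u < u₀ → ∀ F : Finset (Fin n → Idl K), (∀ D ∈ F, Tp s.powerset D ∧ Sq D) →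
      ∑ D ∈ F, Real.exp (-(u * gl D) - tr D) ≤ Real.exp ((1 + ε) * Sf s.card u)) := by
    intro s
    rcases s.eq_empty_or_nonempty with hs | hs
    · exact ⟨1, one_pos, fun h => absurd hs h.ne_empty⟩
    · obtain ⟨u₀, h1, -, h2⟩ := hG n s.powerset s.card 1 1 0 ε (cx_pow hs) one_pos le_rfl
        (by norm_num) hε
      refine ⟨u₀, h1, fun _ u hu hu' F hF => ?_⟩
      have h3 := h2 u hu hu' F hF
      simp only [one_pow, one_mul, zero_mul, sub_zero, mul_one, Nat.cast_one] at h3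
      refine h3.trans (le_of_eq ?_)
      unfold Sf
      rw [mul_one_div]
  choose f hf1 hf2 using h
  have hne : (univ : Finset (Finset (Fin n))).Nonempty := univ_nonempty
  refine ⟨univ.inf' hne f, ?_, fun u hu hu' s hs F hF => ?_⟩
  · rw [Finset.lt_inf'_iff]
    exact fun s _ => hf1 s
  · exact hf2 s hs u hu (hu'.trans_le (Finset.inf'_le _ (mem_univ s))) F hF

/-- the numerical part -/
theorem numF {r t m : ℕ} (hr : 1 ≤ r) (ht : 1 ≤ t) {ε ε₁ θ a S S' L : ℝ} (hε : 0 < ε)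
    (hε1 : ε ≤ 1 / t) (ha : 0 ≤ a) (hθ : θ = ε * t / (2 * r)) (hε₁ : 0 < ε₁)
    (hε₁1 : ε₁ * (3 + 2 * m) ≤ ε ^ 2 * t / (8 * r)) (hε₁2 : ε₁ ≤ 1)
    (hS0 : 0 ≤ S) (hS : t * S ≤ a / r) (hS' : S' ≤ (1 + ε₁) / (1 + r * θ) * S)
    (hL : L ≤ m * (ε₁ * S)) :
    a + θ * (1 / t - ε) * a + (1 + ε₁) * (((t : ℝ) - 1) * S + S' + L) ≤
      (((r : ℝ) + 1) / r - ε ^ 2 * t / (8 * r)) * a := by
  have hr0 : (0 : ℝ) < r := by exact_mod_cast hr
  have ht0 : (0 : ℝ) < t := by exact_mod_cast ht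
  have hr1 : (1 : ℝ) ≤ r := by exact_mod_cast hr
  have ht1 : (1 : ℝ) ≤ t := by exact_mod_cast ht
  have hm0 : (0 : ℝ) ≤ m := Nat.cast_nonneg m
  have hθ0 : 0 < θ := by rw [hθ]; positivity
  -- the tilt
  have h1 : (1 + ε₁) / (1 + r * θ) ≤ 1 - r * θ + (r * θ) ^ 2 + ε₁ := by
    rw [div_le_iff₀ (by positivity)]
    have : 0 ≤ r * θ := by positivity
    nlinarith [mul_nonneg (mul_nonneg this this) this, mul_nonneg hε₁.le this]
  have h2 : S' ≤ (1 - r * θ + (r * θ) ^ 2 + ε₁) * S :=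
    hS'.trans (mul_le_mul_of_nonneg_right h1 hS0)
  have hrθ : r * θ = ε * t / 2 := by rw [hθ]; field_simp
  have hεt : ε * t ≤ 1 := by
    rw [le_div_iff₀ ht0] at hε1
    exact hε1
  have h3 : ((t : ℝ) - 1) * S + S' + L ≤ t * S - (r * θ - (r * θ) ^ 2) * S + ε₁ * (1 + m) * S := by
    nlinarith
  have h4 : 0 ≤ (r * θ - (r * θ) ^ 2) * S := by
    apply mul_nonneg _ hS0
    rw [hrθ]
    nlinarith [mul_pos hε ht0]
  have hSa : S ≤ a / (r * t) := by
    rw [le_div_iff₀ (by positivity)]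
    rw [le_div_iff₀ hr0] at hS
    linarith
  have hSa' : S ≤ a := by
    refine hSa.trans (div_le_self ha ?_)
    nlinarith
  have har : a / r ≤ a := div_le_self ha hr1
  -- the factor `1 + ε₁`
  have h5 : (1 + ε₁) * (((t : ℝ) - 1) * S + S' + L) ≤
      (t * S - (r * θ - (r * θ) ^ 2) * S) + ε₁ * (3 + 2 * m) * a := by
    have h6 : ε₁ * (1 + m) * S ≤ ε₁ * (1 + m) * a :=
      mul_le_mul_of_nonneg_left hSa' (by positivity)
    have h7 : t * S - (r * θ - (r * θ) ^ 2) * S ≤ a := by linarith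
    have h8 : ((t : ℝ) - 1) * S + S' + L ≤ (1 + ε₁ * (1 + m)) * a := by
      linarith
    calc (1 + ε₁) * (((t : ℝ) - 1) * S + S' + L) =
        (((t : ℝ) - 1) * S + S' + L) + ε₁ * (((t : ℝ) - 1) * S + S' + L) := by ring
      _ ≤ (t * S - (r * θ - (r * θ) ^ 2) * S + ε₁ * (1 + m) * a) +
          ε₁ * ((1 + ε₁ * (1 + m)) * a) := by
          have := mul_le_mul_of_nonneg_left h8 hε₁.le
          linarith
      _ ≤ _ := by
          have h9 : ε₁ * (1 + ε₁ * (1 + m)) * a ≤ ε₁ * (1 + 1 * (1 + m)) * a := by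
            apply mul_le_mul_of_nonneg_right _ ha
            apply mul_le_mul_of_nonneg_left _ hε₁.le
            have := mul_le_mul_of_nonneg_right hε₁2 (show 0 ≤ 1 + (m : ℝ) by positivity)
            linarith
          nlinarith
  -- the terms of `θ`
  have h6 : θ * (1 / t - ε) * a + (t * S - (r * θ - (r * θ) ^ 2) * S) ≤
      a / r - ε ^ 2 * t / (4 * r) * a := by
    -- `S` is replaced by `a / (r t)`: the coefficient of `S` is nonnegative
    have h7 : 0 ≤ t - (r * θ - (r * θ) ^ 2) := by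
      rw [hrθ]
      nlinarith
    have h8 : (t - (r * θ - (r * θ) ^ 2)) * S ≤ (t - (r * θ - (r * θ) ^ 2)) * (a / (r * t)) :=
      mul_le_mul_of_nonneg_left hSa h7
    have h9 : θ * (1 / t - ε) * a + (t - (r * θ - (r * θ) ^ 2)) * (a / (r * t)) =
        a / r - ε ^ 2 * t / (4 * r) * a := by
      rw [hrθ, hθ]
      field_simp
      ring
    linarith
  have h8 : ((r : ℝ) + 1) / r * a = a + a / r := by field_simp
  have h9 : ε₁ * (3 + 2 * m) * a ≤ ε ^ 2 * t / (8 * r) * a :=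
    mul_le_mul_of_nonneg_right hε₁1 ha
  have h10 : ε ^ 2 * t / (4 * r) * a = ε ^ 2 * t / (8 * r) * a + ε ^ 2 * t / (8 * r) * a := by
    field_simp
    ring
  have h11 : (((r : ℝ) + 1) / r - ε ^ 2 * t / (8 * r)) * a =
      ((r : ℝ) + 1) / r * a - ε ^ 2 * t / (8 * r) * a := by ring
  rw [h11, h8]
  linarith

/-- Rankin's method for the tuples with a small gain at one maximal face -/
theorem rankF (hG : S_GUPK K) {Δ : Finset (Finset (Fin n))} {r t : ℕ} (hΔ : Cx Δ r t)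
    {s₀ : Finset (Fin n)} (hs₀ : s₀ ∈ Δ) (hs₀r : s₀.card = r) {ε : ℝ} (hε : 0 < ε) :
    ∃ η : ℝ, 0 < η ∧ η ≤ 1 ∧ ∃ Z₀ : ℝ, 1 < Z₀ ∧ ∀ (Z T : ℝ) (F : Finset (Fin n → Idl K)), Z₀ ≤ Z →
      T ≤ Z → (∀ D ∈ F, Tp Δ D ∧ Sq D ∧ T ≤ gl D ∧ gl (prt D s₀) ≤ (1 / t - ε) * Z) →
      ∑ D ∈ F, Real.exp (-tl D) ≤
        Real.exp (-T + (1 - η) * (cst r t * (Z / Real.log Z) ^ ((r : ℝ) / (r + 1)))) := by
  classical
  have hr : 1 ≤ r := hΔ.1
  have ht : 1 ≤ t := hΔ.2.1
  have hr0 : (0 : ℝ) < r := by exact_mod_cast hr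
  have ht0 : (0 : ℝ) < t := by exact_mod_cast ht
  have hr1 : (1 : ℝ) ≤ r := by exact_mod_cast hr
  have ht1 : (1 : ℝ) ≤ t := by exact_mod_cast ht
  -- we may assume `ε ≤ 1 / t`
  obtain ⟨e, he⟩ : ∃ e : ℝ, e = min ε (1 / t) := ⟨_, rfl⟩
  have he0 : 0 < e := by rw [he]; exact lt_min hε (by positivity)
  have heε : e ≤ ε := by rw [he]; exact min_le_left _ _
  have het : e ≤ 1 / t := by rw [he]; exact min_le_right _ _
  have het' : e * t ≤ 1 := by
    rw [le_div_iff₀ ht0] at het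
    exact het
  obtain ⟨m, hm⟩ : ∃ m : ℕ, m = (univ : Finset (Finset (Fin n))).card := ⟨_, rfl⟩
  obtain ⟨θ, hθ⟩ : ∃ θ : ℝ, θ = e * t / (2 * r) := ⟨_, rfl⟩
  have hθ0 : 0 < θ := by rw [hθ]; positivity
  have hθ1 : θ ≤ 1 := by
    rw [hθ, div_le_one (by positivity)]
    linarith
  obtain ⟨ε₁, hε₁⟩ : ∃ ε₁ : ℝ, ε₁ = min 1 (e ^ 2 * t / (8 * r) / (3 + 2 * m)) := ⟨_, rfl⟩
  have hε₁0 : 0 < ε₁ := by rw [hε₁]; exact lt_min one_pos (by positivity)
  have hε₁1 : ε₁ ≤ 1 := by rw [hε₁]; exact min_le_left _ _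
  have hε₁2 : ε₁ * (3 + 2 * m) ≤ e ^ 2 * t / (8 * r) := by
    have : ε₁ ≤ e ^ 2 * t / (8 * r) / (3 + 2 * m) := by rw [hε₁]; exact min_le_right _ _
    rwa [le_div_iff₀ (by positivity)] at this
  obtain ⟨u₁, hu₁, hgup⟩ := gup (K := K) hG n hε₁0
  obtain ⟨u₂, hu₂, hu₂1, hlow⟩ := Sf_low (r := r) hε₁0
  obtain ⟨u₃, hu₃, hu₃1, htilt⟩ := Sf_tilt hr hε₁0 hθ0.le hθ1
  obtain ⟨Z₀, hZ₀⟩ := eventually_atTop.1 (num2 hr ht
    (show 0 < min (u₁ / 2) (min u₂ u₃) from lt_min (by positivity) (lt_min hu₂ hu₃)))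
  refine ⟨e ^ 2 * t / (8 * (r + 1)), by positivity, ?_, max Z₀ 2,
    lt_max_of_lt_right (by norm_num), fun Z T F hZ hT hF => ?_⟩
  · rw [div_le_one (by positivity)]
    have : e ≤ 1 := het.trans (by rw [div_le_one ht0]; exact ht1)
    nlinarith
  obtain ⟨u, hu0, huu, hS, hcst⟩ := hZ₀ Z ((le_max_left _ _).trans hZ)
  have hZ2 : 2 ≤ Z := (le_max_right _ _).trans hZ
  have hZ0 : 0 < Z := by linarith
  have hu1 : u < u₁ / 2 := huu.trans_le (min_le_left _ _)
  have hu2 : u < u₂ := huu.trans_le ((min_le_right _ _).trans (min_le_left _ _))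
  have hu3 : u < u₃ := huu.trans_le ((min_le_right _ _).trans (min_le_right _ _))
  have hu4 : u < 1 / 4 := hu3.trans_le hu₃1
  obtain ⟨a, ha⟩ : ∃ a : ℝ, a = u * Z := ⟨_, rfl⟩
  have ha0 : 0 < a := by rw [ha]; positivity
  rw [← ha] at hS hcst
  have hs₀n : s₀.Nonempty := by
    rw [← Finset.card_pos, hs₀r]
    omega
  -- the parameters of the faces
  obtain ⟨w, hw⟩ : ∃ w : Finset (Fin n) → ℝ, w = fun s => if s = s₀ then (1 + θ) * u else u :=
    ⟨_, rfl⟩
  obtain ⟨B, hB⟩ : ∃ B : Finset (Fin n) → ℝ, B = fun s => (1 + ε₁) * Sf s.card (w s) := ⟨_, rfl⟩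
  have hgen := prod_faces (K := K) (Δ := Δ) (L := F) (fun D hD => ⟨(hF D hD).1, (hF D hD).2.1⟩)
    w B (by
      intro s _ hs G hGs
      rw [hB]
      simp only
      refine hgup (w s) ?_ ?_ s hs G hGs
      · rw [hw]
        simp only
        split_ifs
        · positivity
        · exact hu0
      · rw [hw]
        simp only
        split_ifs
        · nlinarith
        · linarith)
  -- the sum over the faces
  have hsumB : ∑ s ∈ Δ.filter (fun s => s.Nonempty), B s ≤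
      (1 + ε₁) * (((t : ℝ) - 1) * Sf r u + Sf r ((1 + θ) * u) + m * (ε₁ * Sf r u)) := by
    have hB' : ∀ s, B s = (1 + ε₁) * Sf s.card (w s) := fun s => by rw [hB]
    rw [Finset.sum_congr rfl fun s _ => hB' s, ← Finset.mul_sum]
    apply mul_le_mul_of_nonneg_left _ (by linarith)
    have hSf : 0 ≤ Sf r u := Sf_nonneg hu0 (by linarith)
    obtain ⟨Δ', hΔ'⟩ : ∃ Δ', Δ' = Δ.filter (fun s => s.Nonempty) := ⟨_, rfl⟩
    rw [← hΔ', ← Finset.sum_filter_add_sum_filter_not Δ' (fun s => s.card = r)]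
    have e1 : Δ'.filter (fun s => s.card = r) = Δ.filter (fun s => s.card = r) := by
      ext s
      rw [hΔ', mem_filter, mem_filter, mem_filter]
      constructor
      · rintro ⟨⟨h1, -⟩, h2⟩
        exact ⟨h1, h2⟩
      · rintro ⟨h1, h2⟩
        refine ⟨⟨h1, ?_⟩, h2⟩
        rw [← Finset.card_pos, h2]
        omega
    have e2 : (Δ.filter fun s => s.card = r).card = t := hΔ.2.2.2.2.2
    have e3 : s₀ ∈ Δ.filter (fun s => s.card = r) := mem_filter.2 ⟨hs₀, hs₀r⟩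
    have e4 : ∑ s ∈ Δ'.filter (fun s => s.card = r), Sf s.card (w s) =
        Sf r ((1 + θ) * u) + ((t : ℝ) - 1) * Sf r u := by
      rw [e1, ← Finset.add_sum_erase _ _ e3]
      congr 1
      · rw [hs₀r, hw]
        simp
      · have e5 : ∀ s ∈ (Δ.filter fun s => s.card = r).erase s₀, Sf s.card (w s) = Sf r u := by
          intro s hs
          rw [mem_erase, mem_filter] at hs
          rw [hs.2.2, hw]
          simp [hs.1]
        rw [Finset.sum_congr rfl e5, Finset.sum_const, nsmul_eq_mul, Finset.card_erase_of_mem e3,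
          e2, Nat.cast_sub ht, Nat.cast_one]
    have e6 : ∑ s ∈ Δ'.filter (fun s => ¬ s.card = r), Sf s.card (w s) ≤ m * (ε₁ * Sf r u) := by
      refine (Finset.sum_le_card_nsmul _ _ (ε₁ * Sf r u) fun s hs => ?_).trans ?_
      · rw [mem_filter, hΔ', mem_filter] at hs
        obtain ⟨⟨h1, h2⟩, h3⟩ := hs
        have h4 : s ≠ s₀ := by
          rintro rfl
          exact h3 hs₀r
        have h5 : s.card < r := lt_of_le_of_ne (hΔ.2.2.2.2.1 s h1) h3
        rw [hw]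
        simp only [h4, if_false]
        exact hlow u hu0 hu2 s.card h2.card_pos h5
      · rw [nsmul_eq_mul]
        apply mul_le_mul_of_nonneg_right _ (by positivity)
        rw [hm]
        exact_mod_cast Finset.card_le_card (Finset.subset_univ _)
    rw [e4]
    linarith
  have hnum := numF (r := r) (t := t) (m := m) hr ht (ε := e) (ε₁ := ε₁) (θ := θ) (a := a)
    (S := Sf r u) (S' := Sf r ((1 + θ) * u)) (L := m * (ε₁ * Sf r u)) he0 het ha0.le hθ hε₁0 hε₁2
    hε₁1 (Sf_nonneg hu0 (by linarith)) hS (htilt u hu0 hu3) le_rfl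
  -- the tuples
  have hterm : ∀ D ∈ F, Real.exp (-tl D) ≤
      Real.exp (-((1 - u) * T) + θ * (1 / t - e) * a) *
        Real.exp (-(∑ s, w s * gl (prt D s)) - tr D) := by
    intro D hD
    obtain ⟨-, -, g1, g2⟩ := hF D hD
    rw [← Real.exp_add]
    apply Real.exp_le_exp.2
    have h1 : ∑ s, w s * gl (prt D s) = u * gl D + θ * u * gl (prt D s₀) := by
      have h2 : ∀ s, w s * gl (prt D s) = u * gl (prt D s) +
          (if s = s₀ then θ * u * gl (prt D s₀) else 0) := by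
        intro s
        rw [hw]
        simp only
        split_ifs with h
        · rw [h]; ring
        · ring
      rw [Finset.sum_congr rfl fun s _ => h2 s, Finset.sum_add_distrib, ← Finset.mul_sum, sum_gl,
        Finset.sum_ite_eq' univ s₀]
      simp
    have h3 : gl D = tl D - tr D := rfl
    have h4 : (1 - u) * T ≤ (1 - u) * gl D := mul_le_mul_of_nonneg_left g1 (by linarith)
    have h5 : θ * u * gl (prt D s₀) ≤ θ * (1 / t - e) * a := by
      have h6 : gl (prt D s₀) ≤ (1 / t - e) * Z := by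
        refine g2.trans (mul_le_mul_of_nonneg_right ?_ hZ0.le)
        linarith
      calc θ * u * gl (prt D s₀) ≤ θ * u * ((1 / t - e) * Z) :=
            mul_le_mul_of_nonneg_left h6 (by positivity)
        _ = _ := by rw [ha]; ring
    rw [h1]
    linarith
  calc ∑ D ∈ F, Real.exp (-tl D) ≤ ∑ D ∈ F, Real.exp (-((1 - u) * T) + θ * (1 / t - e) * a) *
        Real.exp (-(∑ s, w s * gl (prt D s)) - tr D) := Finset.sum_le_sum hterm
    _ = Real.exp (-((1 - u) * T) + θ * (1 / t - e) * a) *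
        ∑ D ∈ F, Real.exp (-(∑ s, w s * gl (prt D s)) - tr D) := by rw [Finset.mul_sum]
    _ ≤ Real.exp (-((1 - u) * T) + θ * (1 / t - e) * a) *
        Real.exp (∑ s ∈ Δ.filter (fun s => s.Nonempty), B s) :=
        mul_le_mul_of_nonneg_left hgen (Real.exp_pos _).le
    _ ≤ _ := by
        rw [← Real.exp_add]
        apply Real.exp_le_exp.2
        have h5 : u * T ≤ a := by
          rw [ha]
          exact mul_le_mul_of_nonneg_left hT hu0.le
        have h6 : (1 - e ^ 2 * t / (8 * (r + 1))) * (cst r t *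
            (Z / Real.log Z) ^ ((r : ℝ) / (r + 1))) =
            (((r : ℝ) + 1) / r - e ^ 2 * t / (8 * r)) * a := by
          rw [hcst]
          field_simp
        rw [h6]
        linarith

end Pool.Agent.U663.DS
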